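import Mathlib

/-!
Counting embeddings.
-/

set_option autoImplicit false
set_option linter.style.haveILetI false
open scoped Classical

open NumberField

namespace H86IK

section

variable {k L : Type} [Field k] [NumberField k] [Field L] [NumberField L] [Algebra k L]

theorem card_ext (φ : k →+* ℂ) :
    Nat.card {ψ : L →+* ℂ // ψ.comp (algebraMap k L) = φ} = Module.finrank k L := by
  letI := φ.toAlgebra
  let e : {ψ : L →+* ℂ // ψ.comp (algebraMap k L) = φ} ≃ (L →ₐ[k] ℂ) :=
    { toFun := fun ψ => { ψ.1 with commutes' := fun x => RingHom.congr_fun ψ.2 x }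
      invFun := fun ψ => ⟨ψ.toRingHom, RingHom.ext fun x => ψ.commutes x⟩
      left_inv := fun _ => rfl
      right_inv := fun _ => rfl }
  rw [Nat.card_congr e, Nat.card_eq_fintype_card]
  exact AlgHom.card k L ℂ

instance (φ : k →+* ℂ) : Finite {ψ : L →+* ℂ // ψ.comp (algebraMap k L) = φ} :=
  Subtype.finite

theorem card_complex :
    Nat.card {φ : k →+* ℂ // ¬ ComplexEmbedding.IsReal φ} * Module.finrank k L ≤
      Nat.card {ψ : L →+* ℂ // ¬ ComplexEmbedding.IsReal ψ} := by
  let X := Σ φ : {φ : k →+* ℂ // ¬ ComplexEmbedding.IsReal φ},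
    {ψ : L →+* ℂ // ψ.comp (algebraMap k L) = φ.1}
  have hX : Nat.card X = Nat.card {φ : k →+* ℂ // ¬ ComplexEmbedding.IsReal φ} *
      Module.finrank k L := by
    rw [Nat.card_sigma]
    simp only [card_ext]
    rw [Finset.sum_const, Finset.card_univ, smul_eq_mul, Nat.card_eq_fintype_card]
  rw [← hX]
  refine Nat.card_le_card_of_injective (fun x : X => (⟨x.2.1, ?_⟩ :
    {ψ : L →+* ℂ // ¬ ComplexEmbedding.IsReal ψ})) ?_
  · intro hr
    apply x.1.2
    rw [← x.2.2]
    rw [ComplexEmbedding.isReal_iff] at hr ⊢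
    ext y
    exact RingHom.congr_fun hr (algebraMap k L y)
  · rintro ⟨⟨φ, hφ⟩, ⟨ψ, hψ⟩⟩ ⟨⟨φ', hφ'⟩, ⟨ψ', hψ'⟩⟩ h
    have h1 : ψ = ψ' := congrArg Subtype.val h
    subst h1
    have h2 : φ = φ' := hψ.symm.trans hψ'
    subst h2
    rfl

theorem card_real (hreal : ∀ ψ : L →+* ℂ,
      ComplexEmbedding.IsReal (ψ.comp (algebraMap k L)) → ComplexEmbedding.IsReal ψ)
    (P : (k →+* ℝ) → Prop) :
    Nat.card {φ : k →+* ℝ // P φ} * Module.finrank k L ≤
      Nat.card {ψ : L →+* ℝ // P (ψ.comp (algebraMap k L))} := by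
  let X := Σ φ : {φ : k →+* ℝ // P φ},
    {ψ : L →+* ℂ // ψ.comp (algebraMap k L) = Complex.ofRealHom.comp φ.1}
  have hX : Nat.card X = Nat.card {φ : k →+* ℝ // P φ} * Module.finrank k L := by
    rw [Nat.card_sigma]
    simp only [card_ext]
    rw [Finset.sum_const, Finset.card_univ, smul_eq_mul, Nat.card_eq_fintype_card]
  have hR : ∀ x : X, ComplexEmbedding.IsReal x.2.1 := by
    intro x
    apply hreal
    rw [x.2.2, ComplexEmbedding.isReal_iff]
    ext y
    simp [ComplexEmbedding.conjugate_coe_eq]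
  have hE : ∀ x : X, Complex.ofRealHom.comp (hR x).embedding = x.2.1 := by
    intro x
    ext y
    exact ComplexEmbedding.IsReal.coe_embedding_apply (hR x) y
  have hC : ∀ x : X, (hR x).embedding.comp (algebraMap k L) = x.1.1 := by
    intro x
    ext y
    have h1 := RingHom.congr_fun x.2.2 y
    rw [RingHom.comp_apply, ← hE x, RingHom.comp_apply, RingHom.comp_apply] at h1
    exact Complex.ofReal_injective h1
  rw [← hX]
  refine Nat.card_le_card_of_injective (fun x : X => (⟨(hR x).embedding, ?_⟩ :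
    {ψ : L →+* ℝ // P (ψ.comp (algebraMap k L))})) ?_
  · rw [hC]
    exact x.1.2
  · intro x x' h
    have h1 : (hR x).embedding = (hR x').embedding := congrArg Subtype.val h
    have h2 : x.1.1 = x'.1.1 := by rw [← hC x, ← hC x', h1]
    have h3 : x.2.1 = x'.2.1 := by rw [← hE x, ← hE x', h1]
    obtain ⟨⟨φ, hφ⟩, ⟨ψ, hψ⟩⟩ := x
    obtain ⟨⟨φ', hφ'⟩, ⟨ψ', hψ'⟩⟩ := x'
    simp only at h2 h3
    subst h2
    subst h3
    rfl

/-- The real embeddings and the complex places. -/
theorem card_places (L : Type) [Field L] [NumberField L] (P : (L →+* ℝ) → Prop) :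
    2 * (Nat.card {ψ : L →+* ℝ // P ψ} + Nat.card {ψ : L →+* ℝ // ¬ P ψ}) +
      Nat.card {ψ : L →+* ℂ // ¬ ComplexEmbedding.IsReal ψ} =
      2 * Fintype.card (InfinitePlace L) := by
  have h1 : Nat.card {ψ : L →+* ℝ // P ψ} + Nat.card {ψ : L →+* ℝ // ¬ P ψ} =
      Nat.card (L →+* ℝ) := by
    rw [Nat.card_eq_fintype_card, Nat.card_eq_fintype_card, Nat.card_eq_fintype_card]
    have := Fintype.card_subtype_compl P
    have h2 := Fintype.card_subtype_le P
    omega
  have h2 : Nat.card (L →+* ℝ) = InfinitePlace.nrRealPlaces L := by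
    rw [← InfinitePlace.card_real_embeddings, ← Nat.card_eq_fintype_card]
    have hre : ∀ ψ : L →+* ℝ, ComplexEmbedding.IsReal (Complex.ofRealHom.comp ψ) := by
      intro ψ
      rw [ComplexEmbedding.isReal_iff]
      ext y
      simp [ComplexEmbedding.conjugate_coe_eq]
    refine Nat.card_congr
      { toFun := fun ψ => ⟨Complex.ofRealHom.comp ψ, hre ψ⟩
        invFun := fun φ => φ.2.embedding
        left_inv := ?_
        right_inv := ?_ }
    · intro ψ
      ext y
      have := ComplexEmbedding.IsReal.coe_embedding_apply (hre ψ) y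
      exact Complex.ofReal_injective this
    · intro φ
      apply Subtype.ext
      ext y
      exact ComplexEmbedding.IsReal.coe_embedding_apply φ.2 y
  have h3 : Nat.card {ψ : L →+* ℂ // ¬ ComplexEmbedding.IsReal ψ} =
      2 * InfinitePlace.nrComplexPlaces L := by
    rw [Nat.card_eq_fintype_card, InfinitePlace.card_complex_embeddings]
  rw [h1, h2, h3, InfinitePlace.card_eq_nrRealPlaces_add_nrComplexPlaces]
  ring

end

end H86IK
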