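import Mathlib

/-!
Norms of the primes above two, finite sets.
-/

set_option autoImplicit false

open NumberField IsDedekindDomain

namespace H86IK

theorem prod_dvd_two {K : Type} [Field K] [NumberField K]
    (S : Finset (HeightOneSpectrum (𝓞 K))) (hS2 : ∀ w ∈ S, (2 : 𝓞 K) ∈ w.asIdeal) :
    ∏ w ∈ S, w.asIdeal ∣ Ideal.span {(2 : 𝓞 K)} := by
  apply Finset.prod_dvd_of_isRelPrime
  · intro w hw w' hw' hne
    have hm : w.asIdeal.IsMaximal := w.isMaximal
    have hm' : w'.asIdeal.IsMaximal := w'.isMaximal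
    have : IsCoprime w.asIdeal w'.asIdeal := by
      rw [Ideal.isCoprime_iff_sup_eq]
      exact hm.coprime_of_ne hm' (fun h => hne (HeightOneSpectrum.ext h))
    exact this.isRelPrime
  · intro w hw
    rw [Ideal.dvd_span_singleton]
    exact hS2 w hw

theorem norm_le_fin {K L : Type} [Field K] [NumberField K] [Field L] [NumberField L] [Algebra K L]
    (S : Finset (HeightOneSpectrum (𝓞 K))) (h2 : ∀ v ∈ S, (2 : 𝓞 K) ∈ v.asIdeal)
    (S' : Finset (HeightOneSpectrum (𝓞 L))) (hS2 : ∀ w ∈ S', (2 : 𝓞 L) ∈ w.asIdeal)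
    (hS0 : ∀ w ∈ S', ∀ v ∈ S, ¬ v.asIdeal.map (algebraMap (𝓞 K) (𝓞 L)) ≤ w.asIdeal) :
    (∏ v ∈ S, Ideal.absNorm v.asIdeal) ^ Module.finrank K L * ∏ w ∈ S', Ideal.absNorm w.asIdeal ≤
      2 ^ Module.finrank ℚ L := by
  classical
  set J := (∏ v ∈ S, v.asIdeal).map (algebraMap (𝓞 K) (𝓞 L)) with hJ
  set J' := ∏ w ∈ S', w.asIdeal with hJ'
  have hfr : Module.finrank (𝓞 K) (𝓞 L) = Module.finrank K L :=
    (IsFractionRing.finrank_eq (𝓞 K) K (𝓞 L) L).symm
  have hJn : Ideal.absNorm J = (∏ v ∈ S, Ideal.absNorm v.asIdeal) ^ Module.finrank K L := by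
    rw [hJ, Ideal.absNorm_algebraMap, hfr, map_prod]
  have h2J : J ∣ Ideal.span {(2 : 𝓞 L)} := by
    rw [Ideal.dvd_iff_le, hJ]
    have h1 := Ideal.map_mono (f := algebraMap (𝓞 K) (𝓞 L))
      (Ideal.dvd_iff_le.mp (prod_dvd_two S h2))
    rw [Ideal.map_span, Set.image_singleton, map_ofNat] at h1
    exact h1
  have hcop : IsCoprime J J' := by
    rw [hJ']
    apply IsCoprime.prod_right
    intro w hw
    have hm : w.asIdeal.IsMaximal := w.isMaximal
    rw [Ideal.isCoprime_iff_sup_eq, sup_comm]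
    by_contra hne
    have h3 := hm.eq_of_le hne le_sup_left
    have h4 : J ≤ w.asIdeal := by
      rw [h3]
      exact le_sup_right
    rw [hJ, Ideal.map_le_iff_le_comap] at h4
    have hp : (w.asIdeal.comap (algebraMap (𝓞 K) (𝓞 L))).IsPrime := inferInstance
    obtain ⟨v, hv, hle⟩ := (hp.prod_le).mp h4
    exact hS0 w hw v hv (Ideal.map_le_iff_le_comap.mpr hle)
  have hdvd : J * J' ∣ Ideal.span {(2 : 𝓞 L)} := hcop.mul_dvd h2J (prod_dvd_two S' hS2)
  have hn := map_dvd Ideal.absNorm hdvd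
  have h2n : Ideal.absNorm (Ideal.span {(2 : 𝓞 L)}) = 2 ^ Module.finrank ℚ L := by
    rw [Ideal.absNorm_span_singleton]
    have h3 : (2 : 𝓞 L) = algebraMap ℤ (𝓞 L) 2 := by simp
    rw [h3, Algebra.norm_algebraMap, Int.natAbs_pow, RingOfIntegers.rank]
    rfl
  rw [map_mul, hJn, hJ', map_prod, h2n] at hn
  exact Nat.le_of_dvd (by positivity) hn

end H86IK
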