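import Pool.Agent.H10.GrUnit

/-!
The units of a number field modulo squares.
-/

set_option autoImplicit false
set_option linter.style.haveILetI false
open scoped Classical

open NumberField NumberField.Units Pool.Agent.H10

namespace H86IK

section

variable (L : Type) [Field L] [NumberField L]

theorem exists_tau : ∃ τ : torsion L, ¬ ∃ ζ : torsion L, τ = ζ * ζ := by
  obtain ⟨τ, hτ⟩ := IsCyclic.exists_generator (α := torsion L)
  refine ⟨τ, ?_⟩
  rintro ⟨ζ, hζ⟩
  obtain ⟨m, hm⟩ := Subgroup.mem_zpowers_iff.mp (hτ ζ)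
  -- every element is then a square
  let ε : torsion L := ⟨-1, neg_one_torsion L⟩
  have hε : ε * ε = 1 := by
    apply Subtype.ext
    change (-1 : (𝓞 L)ˣ) * -1 = 1
    norm_num
  have hε1 : ε ≠ 1 := by
    intro h
    have h1 := congrArg (fun z : torsion L => (((z : (𝓞 L)ˣ) : 𝓞 L) : L)) h
    have h2 : (-1 : L) = 1 := by
      have e1 : (((ε : (𝓞 L)ˣ) : 𝓞 L) : L) = -1 := by simp [ε]
      have e2 : ((((1 : torsion L) : (𝓞 L)ˣ) : 𝓞 L) : L) = 1 := by simp
      rw [← e1, ← e2]
      exact h1
    norm_num at h2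
  have hodd : τ ^ (2 * m - 1) = 1 := by
    have h1 : τ ^ (2 * m) = τ := by
      rw [two_mul, zpow_add, hm, ← hζ]
    rw [zpow_sub, h1, zpow_one, mul_inv_cancel]
  obtain ⟨j, hj⟩ := Subgroup.mem_zpowers_iff.mp (hτ ε)
  have h3 : ε ^ (2 * m - 1) = 1 := by
    rw [← hj, ← zpow_mul, mul_comm, zpow_mul, hodd, one_zpow]
  have h4 : ε ^ (2 * m - 1) = ε := by
    have e2 : ε ^ (2 : ℤ) = 1 := by
      rw [show (2 : ℤ) = 1 + 1 from rfl, zpow_add, zpow_one, hε]
    rw [zpow_sub, zpow_mul, e2, one_zpow, zpow_one, one_mul, inv_eq_iff_mul_eq_one]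
    exact hε
  exact hε1 (h4.symm.trans h3)

/-- A root of unity which is not the square of one. -/
noncomputable def tau : torsion L := (exists_tau L).choose

theorem tau_spec (ζ : torsion L) : tau L ≠ ζ * ζ := fun h => (exists_tau L).choose_spec ⟨ζ, h⟩

/-- Products of a root of unity and different units of a fundamental system. -/
noncomputable def uG (p : Bool × (Fin (rank L) → Bool)) : (𝓞 L)ˣ :=
  (((if p.1 then tau L else 1 : torsion L)) : (𝓞 L)ˣ) *
    ∏ i, (fundSystem L i) ^ (if p.2 i then (1 : ℤ) else 0)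

theorem uG_inj {p q : Bool × (Fin (rank L) → Bool)}
    (h : IsSquare (uG L p * uG L q)) : p = q := by
  obtain ⟨x, hx⟩ := h
  obtain ⟨⟨ζ, m⟩, hm, -⟩ := exist_unique_eq_mul_prod L x
  obtain ⟨ζe, -, huniq⟩ := exist_unique_eq_mul_prod L (uG L p * uG L q)
  let s : Bool → torsion L := fun b => if b then tau L else 1
  have h1 := huniq (s p.1 * s q.1, fun i => (if p.2 i then (1 : ℤ) else 0) +
    (if q.2 i then (1 : ℤ) else 0)) (by
      simp only [uG, zpow_add, Finset.prod_mul_distrib, s, Subgroup.coe_mul]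
      ac_rfl)
  have h2 := huniq (ζ * ζ, fun i => m i + m i) (by
      rw [hx]
      simp only [zpow_add, Finset.prod_mul_distrib, Subgroup.coe_mul]
      simp only at hm
      rw [hm]
      ac_rfl)
  have h3 := h1.trans h2.symm
  rw [Prod.mk.injEq] at h3
  obtain ⟨h4, h5⟩ := h3
  apply Prod.ext
  · rcases hp : p.1 with _ | _ <;> rcases hq : q.1 with _ | _
    · rfl
    · exfalso
      rw [hp, hq] at h4
      simp only [s, Bool.false_eq_true, if_false, if_true, one_mul] at h4
      exact tau_spec L ζ h4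
    · exfalso
      rw [hp, hq] at h4
      simp only [s, Bool.false_eq_true, if_false, if_true, mul_one] at h4
      exact tau_spec L ζ h4
    · rfl
  · funext i
    have h6 : (if p.2 i then (1 : ℤ) else 0) + (if q.2 i then (1 : ℤ) else 0) = m i + m i :=
      congrFun h5 i
    rcases hp : p.2 i with _ | _ <;> rcases hq : q.2 i with _ | _
    · rfl
    · rw [hp, hq] at h6
      simp only [Bool.false_eq_true, if_false, if_true] at h6
      omega
    · rw [hp, hq] at h6
      simp only [Bool.false_eq_true, if_false, if_true] at h6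
      omega
    · rfl

theorem card_uG :
    Fintype.card (Bool × (Fin (rank L) → Bool)) = 2 ^ Fintype.card (InfinitePlace L) := by
  have h1 : Fintype.card (InfinitePlace L) = rank L + 1 := by
    have h0 : 0 < Fintype.card (InfinitePlace L) := Fintype.card_pos
    rw [rank]
    omega
  rw [Fintype.card_prod, Fintype.card_bool, Fintype.card_fun, Fintype.card_bool, Fintype.card_fin,
    h1, pow_succ, mul_comm]

end

end H86IK
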