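import Pool.Agent.H86.IK.Grw
import Pool.Agent.H86.IK.Uu
import Pool.Agent.H86.IK.Emb
import Pool.Agent.H86.IK.Nrf

/-!
Growth of the two-Selmer group, base fields of arbitrary signature.
-/

set_option autoImplicit false
set_option linter.style.haveILetI false
open scoped Classical

open WithZero WeierstrassCurve IsDedekindDomain NumberField NumberField.Units Pool.Agent.H10 H5SW

namespace H86IK

open H86IG

/-- At the real embedding `φ` zero is the smallest or the only real root of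
`x (x^2 + a x + b)`. -/
def RAt {k : Type} [Field k] (a b : k) (φ : k →+* ℝ) : Prop :=
  φ a ^ 2 < 4 * φ b ∨ (0 < φ b ∧ φ a < 0)

/-- The infinite places. -/
theorem unit_infK {L : Type} [Field L] [NumberField L] {a b : L} (v : InfinitePlace L) {x : L}
    (hx : x ≠ 0) (h : ∀ φ : L →+* ℝ, RAt a b φ ∨ 0 < φ x) :
    H73IS.QPt (-2 * algebraMap L v.Completion a)
      (algebraMap L v.Completion a ^ 2 - 4 * algebraMap L v.Completion b)
      (algebraMap L v.Completion x) := by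
  have hx0 : algebraMap L v.Completion x ≠ 0 := by rwa [Ne, map_eq_zero]
  rcases v.isReal_or_isComplex with hv | hv
  · let e := InfinitePlace.Completion.ringEquivRealOfIsReal hv
    set y : v.Completion := algebraMap L v.Completion x with hy
    have hy0 : e y ≠ 0 := by
      rw [Ne, EmbeddingLike.map_eq_zero_iff, hy, map_eq_zero]
      exact hx
    rcases h (e.toRingHom.comp (algebraMap L v.Completion)) with h1 | h1
    · have key2 := (qpt_realK h1 hy0).map e.symm.toRingHom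
      have e1 : ∀ z : v.Completion, e.symm.toRingHom (e.toRingHom z) = z := fun z =>
        e.symm_apply_apply z
      rw [map_mul, map_sub, map_mul, map_pow, map_neg, map_ofNat, map_ofNat, RingHom.comp_apply,
        RingHom.comp_apply, e1, e1] at key2
      have e2 : e.symm.toRingHom (e y) = y := e.symm_apply_apply y
      rw [e2] at key2
      exact key2
    · apply H73IS.QPt.isSquare hx0
      have h2 : 0 < e y := h1
      refine ⟨e.symm (Real.sqrt (e y)), ?_⟩
      rw [← map_mul, Real.mul_self_sqrt h2.le, RingEquiv.symm_apply_apply]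
  · apply H73IS.QPt.isSquare hx0
    let e := InfinitePlace.Completion.ringEquivComplexOfIsComplex hv
    obtain ⟨z, hz⟩ := IsAlgClosed.exists_pow_nat_eq (e (algebraMap L v.Completion x))
      (n := 2) (by norm_num)
    refine ⟨e.symm z, ?_⟩
    rw [← map_mul, ← pow_two, hz, RingEquiv.symm_apply_apply]

/-- Growth of the two-Selmer group, base field of arbitrary signature. -/
theorem growth_arb {k L : Type} [Field k] [NumberField k] [Field L] [NumberField L] [Algebra k L]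
    {a b : 𝓞 k} (hb0 : b ≠ 0) (hd0 : a ^ 2 - 4 * b ≠ 0)
    (S : Finset (HeightOneSpectrum (𝓞 k))) (hS2 : ∀ v ∈ S, (2 : 𝓞 k) ∈ v.asIdeal)
    (hS : ∀ v ∈ S, H73IS.SmallAt v a b)
    (hunr : ∀ w : HeightOneSpectrum (𝓞 L), (2 : 𝓞 L) ∈ w.asIdeal →
      (2 : 𝓞 L) ∉ w.asIdeal ^ 2)
    (hreal : ∀ ψ : L →+* ℂ,
      ComplexEmbedding.IsReal (ψ.comp (algebraMap k L)) → ComplexEmbedding.IsReal ψ)
    {V : WeierstrassCurve L} (h : H73IS.IsTw V (algebraMap k L a) (algebraMap k L b))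
    (P : Finset V.toAffine.Point) (hP : ∀ X : V.toAffine.Point, ∃ p ∈ P, ∃ S, X = p + (S + S))
    (T : Finset ((AlgebraicClosure L ≃ₐ[L] AlgebraicClosure L) →
      (V.baseChange (AlgebraicClosure L)).toAffine.Point))
    (hT : ∀ f, IsCocycle L V f → IsLocTriv L V f → IsCobound L V (fun σ => f σ + f σ) →
      ∃ t ∈ T, IsCobound L V (fun σ => f σ - t σ)) :
    (2 ^ Nat.card {φ : k →+* ℝ // RAt (a : k) (b : k) φ} *
        ∏ v ∈ S, Ideal.absNorm v.asIdeal) ^ Module.finrank k L ≤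
      (2 ^ Fintype.card (InfinitePlace k)) ^ Module.finrank k L *
        (8 ^ {w : HeightOneSpectrum (𝓞 L) |
          algebraMap (𝓞 k) (𝓞 L) (2 * b * (a ^ 2 - 4 * b)) ∈ w.asIdeal}.ncard *
          (2 * (P.card * T.card))) := by
  set a' : 𝓞 L := algebraMap (𝓞 k) (𝓞 L) a with ha'
  set b' : 𝓞 L := algebraMap (𝓞 k) (𝓞 L) b with hb'
  have hinj : Function.Injective (algebraMap (𝓞 k) (𝓞 L)) :=
    FaithfulSMul.algebraMap_injective (𝓞 k) (𝓞 L)
  have ea : algebraMap k L a = (a' : L) := rfl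
  have eb : algebraMap k L b = (b' : L) := rfl
  have hb0' : b' ≠ 0 := by
    rw [hb', Ne, map_eq_zero_iff _ hinj]
    exact hb0
  have hd0' : a' ^ 2 - 4 * b' ≠ 0 := by
    have e : a' ^ 2 - 4 * b' = algebraMap (𝓞 k) (𝓞 L) (a ^ 2 - 4 * b) := by
      rw [map_sub, map_mul, map_pow, map_ofNat]
    rw [e, Ne, map_eq_zero_iff _ hinj]
    exact hd0
  have ez : algebraMap (𝓞 k) (𝓞 L) (2 * b * (a ^ 2 - 4 * b)) = 2 * b' * (a' ^ 2 - 4 * b') := by
    rw [map_mul, map_mul, map_sub, map_mul, map_pow, map_ofNat, map_ofNat]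
  rw [ez]
  set z : 𝓞 L := 2 * b' * (a' ^ 2 - 4 * b') with hzd
  have hz0 : z ≠ 0 := by
    rw [hzd]
    exact mul_ne_zero (mul_ne_zero two_ne_zero hb0') hd0'
  have hfin : {w : HeightOneSpectrum (𝓞 L) | z ∈ w.asIdeal}.Finite := by
    have h0 : Ideal.span {z} ≠ 0 := by
      rw [Ne, Ideal.zero_eq_bot, Ideal.span_singleton_eq_bot]
      exact hz0
    refine (Ideal.finite_factors h0).subset ?_
    intro w hw
    exact Ideal.dvd_span_singleton.mpr hw
  set B := hfin.toFinset with hB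
  have hmemB : ∀ w : HeightOneSpectrum (𝓞 L), w ∈ B ↔ z ∈ w.asIdeal := fun w => by
    rw [hB, Set.Finite.mem_toFinset]; rfl
  have hcardB : {w : HeightOneSpectrum (𝓞 L) | z ∈ w.asIdeal}.ncard = B.card :=
    Set.ncard_eq_toFinset_card _ hfin
  rw [hcardB]
  let G : HeightOneSpectrum (𝓞 L) → Subgroup (𝓞 L)ˣ := fun w => GK hb0' hd0' w
  let Ov : HeightOneSpectrum (𝓞 L) → Prop := fun w =>
    ∃ v ∈ S, v.asIdeal.map (algebraMap (𝓞 k) (𝓞 L)) ≤ w.asIdeal
  let Q : HeightOneSpectrum (𝓞 L) → Prop := fun w => (2 : 𝓞 L) ∈ w.asIdeal ∧ ¬ Ov w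
  let N : HeightOneSpectrum (𝓞 L) → ℕ := fun w => if Q w then Ideal.absNorm w.asIdeal else 1
  have hN1 : ∀ w, 1 ≤ N w := by
    intro w
    change 1 ≤ if Q w then Ideal.absNorm w.asIdeal else 1
    split_ifs
    · rw [Nat.one_le_iff_ne_zero, Ne, Ideal.absNorm_eq_zero_iff]
      exact w.ne_bot
    · exact le_rfl
  have hsm : ∀ w : HeightOneSpectrum (𝓞 L), (2 : 𝓞 L) ∈ w.asIdeal → Ov w →
      SmallW w (ii w a') (ii w b') := by
    rintro w h2 ⟨v0, hv0, hw⟩
    have hbel : H73IS.below k w = v0 := by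
      apply HeightOneSpectrum.ext
      have hm : v0.asIdeal.IsMaximal := v0.isMaximal
      refine (hm.eq_of_le (H73IS.below k w).isPrime.ne_top ?_).symm
      intro x hx
      rw [H73IS.mem_below]
      exact hw (Ideal.mem_map_of_mem _ hx)
    have hm := H73IS.mem_pow_iff (k := k) w h2 (hunr w h2)
    rw [hbel] at hm
    obtain ⟨i, g1, g2, g3, g4⟩ := hS v0 hv0
    rw [hm] at g1 g2 g3
    rw [hm, hm] at g4
    have va : Valued.v (ii w a') = w.valuation L (algebraMap k L a) := ii_val w a'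
    have vb : Valued.v (ii w b') = w.valuation L (algebraMap k L b) := ii_val w b'
    have vd : Valued.v (ii w a' ^ 2 - 4 * ii w b') =
        w.valuation L (algebraMap k L ((a ^ 2 - 4 * b : 𝓞 k) : k)) := by
      rw [← ii_disc, ii_val]
      congr 1
      have e : a' ^ 2 - 4 * b' = algebraMap (𝓞 k) (𝓞 L) (a ^ 2 - 4 * b) := by
        rw [map_sub, map_mul, map_pow, map_ofNat]
      rw [e]
      rfl
    refine ⟨i, ?_, ?_, ?_, ?_⟩
    · rw [va]; exact_mod_cast g1
    · rw [vb]; exact_mod_cast g2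
    · rw [vd]; exact_mod_cast g3
    · rw [va, vb]; exact_mod_cast g4
  have hG : ∀ w, Finite ((𝓞 L)ˣ ⧸ G w) ∧ Nat.card ((𝓞 L)ˣ ⧸ G w) ≤ 8 * N w := by
    intro w
    by_cases hQ : Q w
    · obtain ⟨f1, f2⟩ := index_norm hb0' hd0' w hQ.1 (hunr w hQ.1)
      refine ⟨f1, f2.trans ?_⟩
      have : N w = Ideal.absNorm w.asIdeal := if_pos hQ
      rw [this]
      exact Nat.mul_le_mul_right _ (by norm_num)
    · obtain ⟨f1, f2⟩ := index_eight hb0' hd0' w (by
        intro h2
        refine ⟨hunr w h2, hsm w h2 ?_⟩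
        by_contra hov
        exact hQ ⟨h2, hov⟩)
      refine ⟨f1, f2.trans ?_⟩
      have := hN1 w
      omega
  haveI : ∀ w : B, Finite ((𝓞 L)ˣ ⧸ G w.1) := fun w => (hG w.1).1
  haveI : Fintype ((w : B) → ((𝓞 L)ˣ ⧸ G w.1)) := Fintype.ofFinite _
  let Bd : Type := {ψ : L →+* ℝ // ¬ RAt (a : k) (b : k) (ψ.comp (algebraMap k L))}
  let φ : (𝓞 L)ˣ → ((w : B) → ((𝓞 L)ˣ ⧸ G w.1)) × (Bd → Bool) :=
    fun u => (fun w => (u : (𝓞 L)ˣ ⧸ G w.1), fun ψ => decide (0 < ψ.1 ((u : 𝓞 L) : L)))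
  have hne : ∀ u : (𝓞 L)ˣ, ((u : 𝓞 L) : L) ≠ 0 := by
    intro u h0
    have : (u : 𝓞 L) = 0 := by exact_mod_cast h0
    exact u.ne_zero this
  have hfib : ∀ q ∈ Finset.univ.image (fun i => φ (uG L i)),
      (Finset.univ.filter fun i => φ (uG L i) = q).card ≤ 2 * (P.card * T.card) := by
    intro q hq
    rw [Finset.mem_image] at hq
    obtain ⟨i₀, -, hi₀⟩ := hq
    have hsame : ∀ i, φ (uG L i) = q → ∀ w ∈ B, uG L i₀ * uG L i ∈ G w := by
      intro i hi w hw
      have e1 : (uG L i₀ : (𝓞 L)ˣ ⧸ G w) = uG L i := by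
        have e2 := congrFun (congrArg Prod.fst (hi₀.trans hi.symm)) ⟨w, hw⟩
        exact e2
      rw [QuotientGroup.eq] at e1
      have e3 : uG L i₀ * uG L i = ((uG L i₀)⁻¹ * uG L i) * (uG L i₀ * uG L i₀) := by
        rw [mul_mul_mul_comm, inv_mul_cancel, one_mul, mul_comm]
      rw [e3]
      exact (G w).mul_mem e1 (sq_mem_GK hb0' hd0' w _)
    have hpos : ∀ i, φ (uG L i) = q → ∀ ψ : Bd,
        0 < ψ.1 (((uG L i₀ * uG L i : (𝓞 L)ˣ) : 𝓞 L) : L) := by
      intro i hi ψ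
      have e2 := congrFun (congrArg Prod.snd (hi₀.trans hi.symm)) ψ
      have e3 : decide (0 < ψ.1 ((uG L i₀ : 𝓞 L) : L)) = decide (0 < ψ.1 ((uG L i : 𝓞 L) : L)) :=
        e2
      rw [decide_eq_decide] at e3
      have n1 : ψ.1 ((uG L i₀ : 𝓞 L) : L) ≠ 0 := by rw [Ne, map_eq_zero]; exact hne _
      have n2 : ψ.1 ((uG L i : 𝓞 L) : L) ≠ 0 := by rw [Ne, map_eq_zero]; exact hne _
      rw [coe_unit_mul, map_mul]
      rcases lt_or_gt_of_ne n1 with h1 | h1
      · have h2 : ¬ 0 < ψ.1 ((uG L i : 𝓞 L) : L) := fun h => absurd (e3.mpr h) (not_lt.mpr h1.le)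
        exact mul_pos_of_neg_of_neg h1 (lt_of_le_of_ne (not_lt.mp h2) n2)
      · exact mul_pos h1 (e3.mp h1)
    have hc := count_classesQ h (ι := {i // φ (uG L i) = q})
      (fun i => (((uG L i₀ * uG L i.1 : (𝓞 L)ˣ) : 𝓞 L) : L)) (fun i => hne _)
      (by
        intro i w
        rw [map_mul, map_sub, map_pow, map_mul, map_neg, map_ofNat, map_ofNat, ea, eb]
        by_cases hw : w ∈ B
        · exact (mem_GK hb0' hd0' w _).mp (hsame i.1 i.2 w hw)
        · rw [hmemB] at hw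
          exact unit_goodK w hw _)
      (by
        intro i v
        rw [map_mul, map_sub, map_pow, map_mul, map_neg, map_ofNat, map_ofNat]
        refine unit_infK v (hne _) ?_
        intro ψ
        by_cases hψ : RAt (a : k) (b : k) (ψ.comp (algebraMap k L))
        · exact Or.inl hψ
        · exact Or.inr (hpos i.1 i.2 ⟨ψ, hψ⟩))
      (by
        intro i j hij
        have e1 : IsSquare ((((uG L i₀ * uG L i.1) * (uG L i₀ * uG L j.1) : (𝓞 L)ˣ) : 𝓞 L) : L) := by
          rw [coe_unit_mul]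
          exact hij
        have e2 := isSquare_unit e1
        apply Subtype.ext
        apply uG_inj L
        obtain ⟨x, hx⟩ := e2
        refine ⟨x * (uG L i₀)⁻¹, ?_⟩
        have e3 : x * (uG L i₀)⁻¹ * (x * (uG L i₀)⁻¹) =
            (x * x) * ((uG L i₀)⁻¹ * (uG L i₀)⁻¹) := by ac_rfl
        rw [e3, ← hx]
        have e4 : uG L i₀ * uG L i.1 * (uG L i₀ * uG L j.1) * ((uG L i₀)⁻¹ * (uG L i₀)⁻¹) =
            (uG L i₀ * (uG L i₀)⁻¹) * (uG L i₀ * (uG L i₀)⁻¹) * (uG L i.1 * uG L j.1) := by ac_rfl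
        rw [e4, mul_inv_cancel, one_mul, one_mul])
      P hP T hT
    rw [← Fintype.card_subtype]
    exact hc
  have h1 := Finset.card_le_mul_card_image (f := fun i => φ (uG L i)) Finset.univ
    (2 * (P.card * T.card)) hfib
  rw [Finset.card_univ, card_uG L] at h1
  have h2 : (Finset.univ.image (fun i => φ (uG L i))).card ≤
      (8 ^ B.card * ∏ w ∈ B, N w) * 2 ^ Nat.card Bd := by
    refine (Finset.card_le_univ _).trans ?_
    rw [Fintype.card_prod, ← Nat.card_eq_fintype_card, Nat.card_pi]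
    have h3 : ∏ w : B, Nat.card ((𝓞 L)ˣ ⧸ G w.1) ≤ ∏ w : B, 8 * N w.1 :=
      Finset.prod_le_prod' fun w _ => (hG w.1).2
    have h4 : ∏ w : B, 8 * N w.1 = 8 ^ B.card * ∏ w ∈ B, N w := by
      rw [Finset.prod_mul_distrib, Finset.prod_const, Finset.card_univ, Fintype.card_coe,
        Finset.prod_coe_sort B N]
    have h5 : Fintype.card (Bd → Bool) = 2 ^ Nat.card Bd := by
      rw [Fintype.card_fun, Fintype.card_bool, Nat.card_eq_fintype_card]
    rw [h5, ← h4]
    exact Nat.mul_le_mul_right _ h3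
  have h4 : ∏ w ∈ B, N w = ∏ w ∈ B.filter Q, Ideal.absNorm w.asIdeal := by
    rw [Finset.prod_filter]
  have h5 := norm_le_fin (K := k) (L := L) S hS2 (B.filter Q)
    (fun w hw => (Finset.mem_filter.mp hw).2.1)
    (fun w hw v hv hle => (Finset.mem_filter.mp hw).2.2 ⟨v, hv, hle⟩)
  rw [← h4] at h5
  have hpos : 0 < ∏ w ∈ B, N w := Finset.prod_pos fun w _ => hN1 w
  -- the infinite places
  have c1 := card_real (k := k) (L := L) hreal (RAt (a : k) (b : k))
  have c2 := card_complex (k := k) (L := L)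
  have c3 := card_places L (fun ψ => RAt (a : k) (b : k) (ψ.comp (algebraMap k L)))
  have c4 := card_places k (RAt (a : k) (b : k))
  have c5 : InfinitePlace.nrRealPlaces k + 2 * InfinitePlace.nrComplexPlaces k =
      Module.finrank ℚ k := InfinitePlace.card_add_two_mul_card_eq_rank k
  have c6 : Fintype.card (InfinitePlace k) =
      InfinitePlace.nrRealPlaces k + InfinitePlace.nrComplexPlaces k :=
    InfinitePlace.card_eq_nrRealPlaces_add_nrComplexPlaces k
  have c7 : Nat.card {ψ : k →+* ℂ // ¬ ComplexEmbedding.IsReal ψ} =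
      2 * InfinitePlace.nrComplexPlaces k := by
    rw [Nat.card_eq_fintype_card, InfinitePlace.card_complex_embeddings]
  have c8 : Module.finrank ℚ k * Module.finrank k L = Module.finrank ℚ L :=
    Module.finrank_mul_finrank ℚ k L
  have hBd : Nat.card Bd = Nat.card {ψ : L →+* ℝ //
      ¬ RAt (a : k) (b : k) (ψ.comp (algebraMap k L))} := rfl
  set n := Module.finrank k L with hn
  set m := Nat.card {φ : k →+* ℝ // RAt (a : k) (b : k) φ} with hm
  set m' := Nat.card {φ : L →+* ℝ // RAt (a : k) (b : k) (φ.comp (algebraMap k L))} with hm'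
  set bd := Nat.card {ψ : L →+* ℝ // ¬ RAt (a : k) (b : k) (ψ.comp (algebraMap k L))} with hbd
  set cL := Nat.card {ψ : L →+* ℂ // ¬ ComplexEmbedding.IsReal ψ} with hcL
  set rk := InfinitePlace.nrRealPlaces k with hrk
  set ck := InfinitePlace.nrComplexPlaces k with hck
  set iL := Fintype.card (InfinitePlace L) with hiL
  rw [hBd] at h2
  rw [c7] at c2
  -- `iL = m' + bd + cL / 2`
  have g1 : m * n + ck * n + bd ≤ iL := by nlinarith
  have hX : 2 ^ (m * n + ck * n) ≤
      2 * (P.card * T.card) * (8 ^ B.card * ∏ w ∈ B, N w) := by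
    have h6 : 2 ^ (m * n + ck * n) * 2 ^ bd ≤
        (2 * (P.card * T.card) * (8 ^ B.card * ∏ w ∈ B, N w)) * 2 ^ bd := by
      calc 2 ^ (m * n + ck * n) * 2 ^ bd = 2 ^ (m * n + ck * n + bd) := by rw [← pow_add]
        _ ≤ 2 ^ iL := Nat.pow_le_pow_right (by norm_num) g1
        _ ≤ 2 * (P.card * T.card) * ((8 ^ B.card * ∏ w ∈ B, N w) * 2 ^ bd) :=
            h1.trans (Nat.mul_le_mul_left _ h2)
        _ = _ := by ring
    exact Nat.le_of_mul_le_mul_right h6 (by positivity)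
  have h7 : (2 ^ m * ∏ v ∈ S, Ideal.absNorm v.asIdeal) ^ n * 2 ^ (ck * n) * ∏ w ∈ B, N w ≤
      2 ^ Module.finrank ℚ L * (8 ^ B.card * (2 * (P.card * T.card))) * ∏ w ∈ B, N w := by
    calc (2 ^ m * ∏ v ∈ S, Ideal.absNorm v.asIdeal) ^ n * 2 ^ (ck * n) * ∏ w ∈ B, N w
        = 2 ^ (m * n + ck * n) *
          ((∏ v ∈ S, Ideal.absNorm v.asIdeal) ^ n * ∏ w ∈ B, N w) := by
          rw [mul_pow, pow_add, pow_mul]; ring
      _ ≤ (2 * (P.card * T.card) * (8 ^ B.card * ∏ w ∈ B, N w)) * 2 ^ Module.finrank ℚ L :=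
          Nat.mul_le_mul hX h5
      _ = _ := by ring
  have h8 := Nat.le_of_mul_le_mul_right h7 hpos
  have h9 : 2 ^ Module.finrank ℚ L = (2 ^ Fintype.card (InfinitePlace k)) ^ n * 2 ^ (ck * n) := by
    rw [← c8, ← c5, c6, ← pow_mul, ← pow_add]
    congr 1
    ring
  rw [h9] at h8
  refine Nat.le_of_mul_le_mul_right (c := 2 ^ (ck * n)) ?_ (by positivity)
  calc (2 ^ m * ∏ v ∈ S, Ideal.absNorm v.asIdeal) ^ n * 2 ^ (ck * n) ≤ _ := h8
    _ = _ := by ring

end H86IK
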