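import Pool.Agent.H86.IK.Arb
import Pool.Agent.H86.IG.Kgr
import Pool.Agent.H68.QS.Lay
import Pool.Agent.H68.IM.Emb

/-!
Growth of the two-Selmer group in the fields `k L'`, base field of arbitrary signature.
-/

set_option autoImplicit false
set_option linter.style.haveILetI false
open scoped Classical

open WithZero WeierstrassCurve IsDedekindDomain NumberField NumberField.Units Pool.Agent.H10 H5SW

namespace H86IK

open H86IG

section

variable {k L L' : Type} [Field k] [NumberField k] [Field L] [NumberField L] [Field L']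
  [NumberField L'] [Algebra k L]

/-- The real places of `k` stay real in `k L'`. -/
theorem real_gen [IsTotallyReal L'] (h : L' →+* L)
    (hgen : IntermediateField.adjoin k (Set.range h) = ⊤) (ψ : L →+* ℂ)
    (hψ : ComplexEmbedding.IsReal (ψ.comp (algebraMap k L))) : ComplexEmbedding.IsReal ψ := by
  have hL' : ∀ x : L', (starRingEnd ℂ) (ψ (h x)) = ψ (h x) := by
    intro x
    have hr : ComplexEmbedding.IsReal (ψ.comp h) := by
      have h1 : (InfinitePlace.mk (ψ.comp h)).IsReal := IsTotallyReal.isReal _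
      rwa [InfinitePlace.isReal_mk_iff] at h1
    rw [ComplexEmbedding.isReal_iff] at hr
    exact RingHom.congr_fun hr x
  have hk : ∀ x : k, (starRingEnd ℂ) (ψ (algebraMap k L x)) = ψ (algebraMap k L x) := by
    intro x
    rw [ComplexEmbedding.isReal_iff] at hψ
    exact RingHom.congr_fun hψ x
  let F : IntermediateField k L :=
    { (RingHom.eqLocusField ((starRingEnd ℂ).comp ψ) ψ) with
      algebraMap_mem' := fun x => hk x }
  have htop : F = ⊤ := by
    rw [eq_top_iff, ← hgen, IntermediateField.adjoin_le_iff]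
    rintro _ ⟨x, rfl⟩
    exact hL' x
  rw [ComplexEmbedding.isReal_iff]
  ext x
  have hx : x ∈ F := by rw [htop]; trivial
  exact hx

/-- The degree of `k L'` over `L'`. -/
theorem finrank_gen (h : L' →+* L) (hgen : IntermediateField.adjoin k (Set.range h) = ⊤) :
    @Module.finrank L' L _ _ h.toAlgebra.toModule ≤ Module.finrank ℚ k := by
  letI := h.toAlgebra
  refine H68QS.finrank_comp (algebraMap k L) ?_
  rw [eq_top_iff]
  intro x _
  have hx : x ∈ IntermediateField.adjoin k (Set.range h) := by rw [hgen]; trivial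
  let F : IntermediateField k L :=
    { (IntermediateField.adjoin ℚ (Set.range (algebraMap k L) ∪
        Set.range (algebraMap L' L))).toSubfield with
      algebraMap_mem' := fun y => IntermediateField.subset_adjoin ℚ _ (Or.inl ⟨y, rfl⟩) }
  have hle : IntermediateField.adjoin k (Set.range h) ≤ F := by
    rw [IntermediateField.adjoin_le_iff]
    rintro _ ⟨y, rfl⟩
    exact IntermediateField.subset_adjoin ℚ _ (Or.inr ⟨y, rfl⟩)
  exact hle hx

end

/-- Growth of the two-Selmer group in the fields `k L'`. -/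
theorem growth_gen (p : ℕ) [Fact p.Prime] (hp2 : p ≠ 2) (k : Type) [Field k] [NumberField k]
    (hk : H68QS.Unr2 k) {a b : 𝓞 k} (hb0 : b ≠ 0) (hd0 : a ^ 2 - 4 * b ≠ 0)
    (S : Finset (HeightOneSpectrum (𝓞 k))) (hS2 : ∀ v ∈ S, (2 : 𝓞 k) ∈ v.asIdeal)
    (hS : ∀ v ∈ S, H73IS.SmallAt v a b) :
    ∃ C : ℕ, ∀ (L' L : Type) [Field L'] [NumberField L'] [Field L] [NumberField L] [Algebra k L]
      (h : L' →+* L), IsR p L' → IntermediateField.adjoin k (Set.range h) = ⊤ →
      ∀ (E : WeierstrassCurve L), E = ⟨0, algebraMap k L a, 0, algebraMap k L b, 0⟩ →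
      ∀ (P : Finset E.toAffine.Point) (T : Finset ((AlgebraicClosure L ≃ₐ[L] AlgebraicClosure L) →
        (E.baseChange (AlgebraicClosure L)).toAffine.Point)),
      (∀ X : E.toAffine.Point, ∃ p ∈ P, ∃ S, X = p + (S + S)) →
      (∀ f, IsCocycle L E f → IsLocTriv L E f → IsCobound L E (fun σ => f σ + f σ) →
        ∃ t ∈ T, IsCobound L E (fun σ => f σ - t σ)) →
      (2 ^ Nat.card {φ : k →+* ℝ // RAt (a : k) (b : k) φ} *
          ∏ v ∈ S, Ideal.absNorm v.asIdeal) ^ Module.finrank k L ≤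
        (2 ^ Fintype.card (InfinitePlace k)) ^ Module.finrank k L * (C * (P.card * T.card)) := by
  set z : 𝓞 k := 2 * b * (a ^ 2 - 4 * b) with hz
  have hz0 : z ≠ 0 := mul_ne_zero (mul_ne_zero two_ne_zero hb0) hd0
  set D : ℤ := (Ideal.absNorm (Ideal.span {z}) : ℤ) with hD
  have hD0 : D ≠ 0 := by
    rw [hD]
    have h1 : Ideal.absNorm (Ideal.span {z}) ≠ 0 := by
      rw [Ne, Ideal.absNorm_eq_zero_iff, Ideal.span_singleton_eq_bot]
      exact hz0
    exact_mod_cast h1
  have hzD : z ∣ (D : 𝓞 k) := by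
    have h1 := Ideal.absNorm_mem (Ideal.span {z})
    rw [Ideal.mem_span_singleton] at h1
    rw [hD]
    exact_mod_cast h1
  obtain ⟨s, hs⟩ := bad_count (p := p) hp2 hD0
  refine ⟨8 ^ (Module.finrank ℚ k * s) * 2, ?_⟩
  intro L' L _ _ _ _ _ hL hR hgen E hE P T hP hT
  have hd := finrank_gen hL hgen
  letI := hL.toAlgebra
  haveI := hR.1
  have h : H73IS.IsTw E (algebraMap k L a) (algebraMap k L b) := by
    subst hE
    refine ⟨rfl, rfl, rfl, rfl, rfl, ?_, ?_, two_ne_zero⟩
    · rw [Ne, map_eq_zero]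
      exact_mod_cast hb0
    · have e : algebraMap k L a ^ 2 - 4 * algebraMap k L b =
          algebraMap k L (algebraMap (𝓞 k) k (a ^ 2 - 4 * b)) := by
        rw [map_sub, map_mul, map_pow, map_ofNat, map_sub, map_mul, map_pow, map_ofNat]
      rw [e, Ne, map_eq_zero, map_eq_zero_iff _ (FaithfulSMul.algebraMap_injective (𝓞 k) k)]
      exact hd0
  refine (growth_arb hb0 hd0 S hS2 hS (H68IM.unr_gen hp2 hk hL hR hgen) (real_gen hL hgen) h
    P hP T hT).trans ?_
  refine Nat.mul_le_mul_left _ ?_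
  rw [mul_assoc (8 ^ (Module.finrank ℚ k * s)) 2]
  refine Nat.mul_le_mul_right _ (Nat.pow_le_pow_right (n := 8) (by norm_num) ?_)
  refine le_trans ?_ ((ncard_above (K := L') hD0).trans (Nat.mul_le_mul hd (hs L' hR)))
  refine Set.ncard_le_ncard ?_ (bad_fin (L := L) hD0)
  intro w hw
  change (D : 𝓞 L) ∈ w.asIdeal
  have h1 : algebraMap (𝓞 k) (𝓞 L) z ∈ w.asIdeal := hw
  obtain ⟨c, hc⟩ := hzD
  have h2 : (D : 𝓞 L) = algebraMap (𝓞 k) (𝓞 L) z * algebraMap (𝓞 k) (𝓞 L) c := by
    rw [← map_mul, ← hc, map_intCast]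
  rw [h2]
  exact Ideal.mul_mem_right _ _ h1

end H86IK
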