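import Mathlib

/-!
Norms of the primes above two.
-/

set_option autoImplicit false

open NumberField IsDedekindDomain

namespace H86IK

theorem norm_le {K L : Type} [Field K] [NumberField K] [Field L] [NumberField L] [Algebra K L]
    (v0 : HeightOneSpectrum (𝓞 K)) (h2 : (2 : 𝓞 K) ∈ v0.asIdeal)
    (S : Finset (HeightOneSpectrum (𝓞 L))) (hS2 : ∀ w ∈ S, (2 : 𝓞 L) ∈ w.asIdeal)
    (hS0 : ∀ w ∈ S, ¬ v0.asIdeal.map (algebraMap (𝓞 K) (𝓞 L)) ≤ w.asIdeal) :
    2 ^ Module.finrank K L * ∏ w ∈ S, Ideal.absNorm w.asIdeal ≤ 2 ^ Module.finrank ℚ L := by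
  classical
  set J := v0.asIdeal.map (algebraMap (𝓞 K) (𝓞 L)) with hJ
  set J' := ∏ w ∈ S, w.asIdeal with hJ'
  have hfr : Module.finrank (𝓞 K) (𝓞 L) = Module.finrank K L :=
    (IsFractionRing.finrank_eq (𝓞 K) K (𝓞 L) L).symm
  have hJn : Ideal.absNorm J = Ideal.absNorm v0.asIdeal ^ Module.finrank K L := by
    rw [hJ, Ideal.absNorm_algebraMap, hfr]
  have hv : 2 ≤ Ideal.absNorm v0.asIdeal := by
    have h0 : Ideal.absNorm v0.asIdeal ≠ 0 := by
      rw [Ne, Ideal.absNorm_eq_zero_iff]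
      exact v0.ne_bot
    have h1 : Ideal.absNorm v0.asIdeal ≠ 1 := by
      rw [Ne, Ideal.absNorm_eq_one_iff]
      exact v0.isPrime.ne_top
    omega
  have h2J : Ideal.span {(2 : 𝓞 L)} ≤ J := by
    rw [Ideal.span_singleton_le_iff_mem]
    have := Ideal.mem_map_of_mem (algebraMap (𝓞 K) (𝓞 L)) h2
    rwa [map_ofNat] at this
  have hcop : IsCoprime J J' := by
    rw [hJ']
    apply IsCoprime.prod_right
    intro w hw
    have hm : w.asIdeal.IsMaximal := w.isMaximal
    rw [Ideal.isCoprime_iff_sup_eq, sup_comm]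
    by_contra hne
    have h3 := hm.eq_of_le hne le_sup_left
    apply hS0 w hw
    rw [h3]
    exact le_sup_right
  have h2J' : J' ∣ Ideal.span {(2 : 𝓞 L)} := by
    rw [hJ']
    apply Finset.prod_dvd_of_isRelPrime
    · intro w hw w' hw' hne
      have hm : w.asIdeal.IsMaximal := w.isMaximal
      have hm' : w'.asIdeal.IsMaximal := w'.isMaximal
      have : IsCoprime w.asIdeal w'.asIdeal := by
        rw [Ideal.isCoprime_iff_sup_eq]
        exact hm.coprime_of_ne hm' (fun h => hne (HeightOneSpectrum.ext h))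
      exact this.isRelPrime
    · intro w hw
      rw [Ideal.dvd_span_singleton]
      exact hS2 w hw
  have hdvd : J * J' ∣ Ideal.span {(2 : 𝓞 L)} :=
    hcop.mul_dvd (Ideal.dvd_iff_le.mpr h2J) h2J'
  have hn := map_dvd Ideal.absNorm hdvd
  have h2n : Ideal.absNorm (Ideal.span {(2 : 𝓞 L)}) = 2 ^ Module.finrank ℚ L := by
    rw [Ideal.absNorm_span_singleton]
    have h3 : (2 : 𝓞 L) = algebraMap ℤ (𝓞 L) 2 := by simp
    rw [h3, Algebra.norm_algebraMap, Int.natAbs_pow, RingOfIntegers.rank]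
    rfl
  rw [map_mul, hJn, hJ', map_prod, h2n] at hn
  have hle := Nat.le_of_dvd (by positivity) hn
  refine le_trans ?_ hle
  exact Nat.mul_le_mul_right _ (Nat.pow_le_pow_left hv _)

end H86IK
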