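import Pool.Agent.H86.IK.Plc
import Pool.Agent.H86.IK.Nrm
import Pool.Agent.H73.IS.KVal

/-!
Growth of the two-Selmer group, curves over a base field with one rational point of order two.
-/

set_option autoImplicit false
set_option linter.style.haveILetI false
open scoped Classical

open WithZero WeierstrassCurve IsDedekindDomain NumberField NumberField.Units Pool.Agent.H10 H5SW

namespace H86IK

open H86IG

section

variable {L : Type} [Field L] [NumberField L]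

theorem ii_unit_ne (w : HeightOneSpectrum (𝓞 L)) (u : (𝓞 L)ˣ) : ii w (u : 𝓞 L) ≠ 0 :=
  ne_zero_of_V (unit_valued w u)

theorem ii_ne (w : HeightOneSpectrum (𝓞 L)) {x : 𝓞 L} (hx : x ≠ 0) : ii w x ≠ 0 := by
  rw [ii, Ne, map_eq_zero]
  exact_mod_cast hx

theorem ii_disc (w : HeightOneSpectrum (𝓞 L)) (a b : 𝓞 L) :
    ii w (a ^ 2 - 4 * b) = ii w a ^ 2 - 4 * ii w b := by
  rw [ii_sub, ii_mul, ii_pow]
  congr 2
  have h4 : ((4 : 𝓞 L) : L) = 4 := map_ofNat (algebraMap (𝓞 L) L) 4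
  rw [ii, h4, map_ofNat]

theorem ii_umul (w : HeightOneSpectrum (𝓞 L)) (x y : (𝓞 L)ˣ) :
    ii w ((x * y : (𝓞 L)ˣ) : 𝓞 L) = ii w (x : 𝓞 L) * ii w (y : 𝓞 L) := by
  change algebraMap L (w.adicCompletion L) _ = _
  rw [coe_unit_mul, map_mul]

/-- The units whose class is soluble at `w`. -/
def GK {a b : 𝓞 L} (hb : b ≠ 0) (hd : a ^ 2 - 4 * b ≠ 0) (w : HeightOneSpectrum (𝓞 L)) :
    Subgroup (𝓞 L)ˣ where
  carrier := {u | H73IS.QPt (-2 * ii w a) (ii w a ^ 2 - 4 * ii w b) (ii w (u : 𝓞 L))}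
  one_mem' := by
    apply H73IS.QPt.isSquare
    · exact ii_unit_ne w 1
    · refine ⟨1, ?_⟩
      simp [ii]
  mul_mem' := by
    intro x y hx hy
    have hd' : ii w a ^ 2 - 4 * ii w b ≠ 0 := by
      rw [← ii_disc]
      exact ii_ne w hd
    have hb' : (-2 * ii w a) ^ 2 - 4 * (ii w a ^ 2 - 4 * ii w b) ≠ 0 := by
      have e : (-2 * ii w a) ^ 2 - 4 * (ii w a ^ 2 - 4 * ii w b) = 16 * ii w b := by ring
      rw [e]
      exact mul_ne_zero (by norm_num) (ii_ne w hb)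
    have := H73IS.QPt.mul hd' hb' (ii_unit_ne w x) (ii_unit_ne w y) hx hy
    change H73IS.QPt _ _ _
    rw [ii_umul]
    exact this
  inv_mem' := by
    intro x hx
    refine QPt.of_mul_square (ii_unit_ne w x) (ii_unit_ne w x⁻¹) hx ?_
    refine ⟨1, ?_⟩
    rw [ii, ii, ← map_mul, ← coe_unit_mul, inv_mul_cancel, mul_one]
    exact map_one _

lemma mem_GK {a b : 𝓞 L} (hb : b ≠ 0) (hd : a ^ 2 - 4 * b ≠ 0) (w : HeightOneSpectrum (𝓞 L))
    (u : (𝓞 L)ˣ) : u ∈ GK hb hd w ↔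
      H73IS.QPt (-2 * ii w a) (ii w a ^ 2 - 4 * ii w b) (ii w (u : 𝓞 L)) := Iff.rfl

lemma sq_mem_GK {a b : 𝓞 L} (hb : b ≠ 0) (hd : a ^ 2 - 4 * b ≠ 0) (w : HeightOneSpectrum (𝓞 L))
    (x : (𝓞 L)ˣ) : x * x ∈ GK hb hd w := by
  rw [mem_GK]
  apply H73IS.QPt.isSquare
  · exact ii_unit_ne w _
  rw [ii, coe_unit_mul, map_mul]
  exact ⟨_, rfl⟩

lemma index_eight {a b : 𝓞 L} (hb0 : b ≠ 0) (hd0 : a ^ 2 - 4 * b ≠ 0)
    (w : HeightOneSpectrum (𝓞 L))
    (hw : (2 : 𝓞 L) ∈ w.asIdeal → (2 : 𝓞 L) ∉ w.asIdeal ^ 2 ∧ SmallW w (ii w a) (ii w b)) :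
    Finite ((𝓞 L)ˣ ⧸ GK hb0 hd0 w) ∧ Nat.card ((𝓞 L)ˣ ⧸ GK hb0 hd0 w) ≤ 8 := by
  apply index_of_pigeon _ (sq_mem_GK hb0 hd0 w)
  intro u
  have key : ∃ p q, p ≠ q ∧ H73IS.QPt (-2 * ii w a) (ii w a ^ 2 - 4 * ii w b)
      (ii w (u p : 𝓞 L) * ii w (u q : 𝓞 L)) := by
    by_cases h2 : (2 : 𝓞 L) ∈ w.asIdeal
    · obtain ⟨h2', hS⟩ := hw h2
      refine unit_twoK w (ii_ne w hb0) ?_ hS h2 h2' u
      rw [← ii_disc]
      exact ii_ne w hd0
    · exact unit_oddQ w h2 _ _ u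
  obtain ⟨p, q, hpq, hC⟩ := key
  refine ⟨p, q, hpq, ?_⟩
  rw [mem_GK, ii_umul]
  exact hC

lemma index_norm {a b : 𝓞 L} (hb0 : b ≠ 0) (hd0 : a ^ 2 - 4 * b ≠ 0)
    (w : HeightOneSpectrum (𝓞 L))
    (h2 : (2 : 𝓞 L) ∈ w.asIdeal) (h2' : (2 : 𝓞 L) ∉ w.asIdeal ^ 2) :
    Finite ((𝓞 L)ˣ ⧸ GK hb0 hd0 w) ∧
      Nat.card ((𝓞 L)ˣ ⧸ GK hb0 hd0 w) ≤ 2 * Ideal.absNorm w.asIdeal := by
  apply index_of_pigeon _ (sq_mem_GK hb0 hd0 w)
  intro u
  obtain ⟨p, q, hpq, hC⟩ := unit_sqK w h2 h2' u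
  refine ⟨p, q, hpq, ?_⟩
  rw [mem_GK, ii_umul]
  exact H73IS.QPt.isSquare (mul_ne_zero (ii_unit_ne w _) (ii_unit_ne w _)) hC

theorem qpt_realK {a b x : ℝ} (h : a ^ 2 < 4 * b ∨ (0 < b ∧ a < 0)) (hx : x ≠ 0) :
    H73IS.QPt (-2 * a) (a ^ 2 - 4 * b) x := by
  rcases lt_or_gt_of_ne hx with hneg | hpos
  · rcases h with h1 | ⟨h1, h2⟩
    · refine ⟨0, 1, Real.sqrt ((a ^ 2 - 4 * b) / x), Or.inr one_ne_zero, ?_⟩
      rw [Real.sq_sqrt (div_nonneg_of_nonpos (by linarith) hneg.le)]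
      field_simp
      ring
    · have hM : Real.sqrt (a / x) ^ 2 = a / x :=
        Real.sq_sqrt (div_nonneg_of_nonpos h2.le hneg.le)
      refine ⟨Real.sqrt (a / x), 1, Real.sqrt ((-4 * b) / x), Or.inr one_ne_zero, ?_⟩
      have hM4 : Real.sqrt (a / x) ^ 4 = (a / x) ^ 2 := by
        calc Real.sqrt (a / x) ^ 4 = (Real.sqrt (a / x) ^ 2) ^ 2 := by ring
          _ = (a / x) ^ 2 := by rw [hM]
      rw [Real.sq_sqrt (div_nonneg_of_nonpos (by linarith) hneg.le), hM4, hM]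
      field_simp
      ring
  · exact H73IS.QPt.isSquare hx ⟨Real.sqrt x, (Real.mul_self_sqrt hpos.le).symm⟩

theorem unit_realK [IsTotallyReal L] {a b : L}
    (h : ∀ φ : L →+* ℝ, φ a ^ 2 < 4 * φ b ∨ (0 < φ b ∧ φ a < 0)) (v : InfinitePlace L) {x : L}
    (hx : x ≠ 0) :
    H73IS.QPt (-2 * algebraMap L v.Completion a)
      (algebraMap L v.Completion a ^ 2 - 4 * algebraMap L v.Completion b)
      (algebraMap L v.Completion x) := by
  have hv : v.IsReal := IsTotallyReal.isReal v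
  let e := InfinitePlace.Completion.ringEquivRealOfIsReal hv
  set y : v.Completion := algebraMap L v.Completion x with hy
  have hy0 : e y ≠ 0 := by
    rw [Ne, EmbeddingLike.map_eq_zero_iff, hy, map_eq_zero]
    exact hx
  have key2 := (qpt_realK (h (e.toRingHom.comp (algebraMap L v.Completion))) hy0).map
    e.symm.toRingHom
  have e1 : ∀ z : v.Completion, e.symm.toRingHom (e.toRingHom z) = z := fun z =>
    e.symm_apply_apply z
  rw [map_mul, map_sub, map_mul, map_pow, map_neg, map_ofNat, map_ofNat, RingHom.comp_apply,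
    RingHom.comp_apply, e1, e1] at key2
  have e2 : e.symm.toRingHom (e y) = y := e.symm_apply_apply y
  rw [e2] at key2
  exact key2

end

/-- Growth of the two-Selmer group. -/
theorem growthK {k L : Type} [Field k] [NumberField k] [Field L] [NumberField L] [Algebra k L]
    [IsTotallyReal L] {a b : 𝓞 k} (hb0 : b ≠ 0) (hd0 : a ^ 2 - 4 * b ≠ 0) (hR : H73IS.RR k a b)
    (v0 : HeightOneSpectrum (𝓞 k)) (hv2 : (2 : 𝓞 k) ∈ v0.asIdeal) (hS : H73IS.SmallAt v0 a b)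
    (hunr : ∀ w : HeightOneSpectrum (𝓞 L), (2 : 𝓞 L) ∈ w.asIdeal →
      (2 : 𝓞 L) ∉ w.asIdeal ^ 2)
    {V : WeierstrassCurve L} (h : H73IS.IsTw V (algebraMap k L a) (algebraMap k L b))
    (P : Finset V.toAffine.Point) (hP : ∀ X : V.toAffine.Point, ∃ p ∈ P, ∃ S, X = p + (S + S))
    (T : Finset ((AlgebraicClosure L ≃ₐ[L] AlgebraicClosure L) →
      (V.baseChange (AlgebraicClosure L)).toAffine.Point))
    (hT : ∀ f, IsCocycle L V f → IsLocTriv L V f → IsCobound L V (fun σ => f σ + f σ) →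
      ∃ t ∈ T, IsCobound L V (fun σ => f σ - t σ)) :
    2 ^ Module.finrank k L ≤ 8 ^ {w : HeightOneSpectrum (𝓞 L) |
      algebraMap (𝓞 k) (𝓞 L) (2 * b * (a ^ 2 - 4 * b)) ∈ w.asIdeal}.ncard *
        (2 * (P.card * T.card)) := by
  set a' : 𝓞 L := algebraMap (𝓞 k) (𝓞 L) a with ha'
  set b' : 𝓞 L := algebraMap (𝓞 k) (𝓞 L) b with hb'
  have hinj : Function.Injective (algebraMap (𝓞 k) (𝓞 L)) :=
    FaithfulSMul.algebraMap_injective (𝓞 k) (𝓞 L)
  have ea : algebraMap k L a = (a' : L) := rfl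
  have eb : algebraMap k L b = (b' : L) := rfl
  have hb0' : b' ≠ 0 := by
    rw [hb', Ne, map_eq_zero_iff _ hinj]
    exact hb0
  have hd0' : a' ^ 2 - 4 * b' ≠ 0 := by
    have e : a' ^ 2 - 4 * b' = algebraMap (𝓞 k) (𝓞 L) (a ^ 2 - 4 * b) := by
      rw [map_sub, map_mul, map_pow, map_ofNat]
    rw [e, Ne, map_eq_zero_iff _ hinj]
    exact hd0
  have ez : algebraMap (𝓞 k) (𝓞 L) (2 * b * (a ^ 2 - 4 * b)) = 2 * b' * (a' ^ 2 - 4 * b') := by
    rw [map_mul, map_mul, map_sub, map_mul, map_pow, map_ofNat, map_ofNat]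
  rw [ez]
  set z : 𝓞 L := 2 * b' * (a' ^ 2 - 4 * b') with hzd
  have hz0 : z ≠ 0 := by
    rw [hzd]
    exact mul_ne_zero (mul_ne_zero two_ne_zero hb0') hd0'
  have hfin : {w : HeightOneSpectrum (𝓞 L) | z ∈ w.asIdeal}.Finite := by
    have h0 : Ideal.span {z} ≠ 0 := by
      rw [Ne, Ideal.zero_eq_bot, Ideal.span_singleton_eq_bot]
      exact hz0
    refine (Ideal.finite_factors h0).subset ?_
    intro w hw
    exact Ideal.dvd_span_singleton.mpr hw
  set B := hfin.toFinset with hB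
  have hmemB : ∀ w : HeightOneSpectrum (𝓞 L), w ∈ B ↔ z ∈ w.asIdeal := fun w => by
    rw [hB, Set.Finite.mem_toFinset]; rfl
  have hcardB : {w : HeightOneSpectrum (𝓞 L) | z ∈ w.asIdeal}.ncard = B.card :=
    Set.ncard_eq_toFinset_card _ hfin
  rw [hcardB]
  let G : HeightOneSpectrum (𝓞 L) → Subgroup (𝓞 L)ˣ := fun w => GK hb0' hd0' w
  let Ov : HeightOneSpectrum (𝓞 L) → Prop := fun w =>
    v0.asIdeal.map (algebraMap (𝓞 k) (𝓞 L)) ≤ w.asIdeal
  let Q : HeightOneSpectrum (𝓞 L) → Prop := fun w => (2 : 𝓞 L) ∈ w.asIdeal ∧ ¬ Ov w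
  let N : HeightOneSpectrum (𝓞 L) → ℕ := fun w => if Q w then Ideal.absNorm w.asIdeal else 1
  have hN1 : ∀ w, 1 ≤ N w := by
    intro w
    change 1 ≤ if Q w then Ideal.absNorm w.asIdeal else 1
    split_ifs
    · rw [Nat.one_le_iff_ne_zero, Ne, Ideal.absNorm_eq_zero_iff]
      exact w.ne_bot
    · exact le_rfl
  have hsm : ∀ w : HeightOneSpectrum (𝓞 L), (2 : 𝓞 L) ∈ w.asIdeal → Ov w →
      SmallW w (ii w a') (ii w b') := by
    intro w h2 hw
    have hbel : H73IS.below k w = v0 := by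
      apply HeightOneSpectrum.ext
      have hm : v0.asIdeal.IsMaximal := v0.isMaximal
      refine (hm.eq_of_le (H73IS.below k w).isPrime.ne_top ?_).symm
      intro x hx
      rw [H73IS.mem_below]
      exact hw (Ideal.mem_map_of_mem _ hx)
    have hm := H73IS.mem_pow_iff (k := k) w h2 (hunr w h2)
    rw [hbel] at hm
    obtain ⟨i, g1, g2, g3, g4⟩ := hS
    rw [hm] at g1 g2 g3
    rw [hm, hm] at g4
    have va : Valued.v (ii w a') = w.valuation L (algebraMap k L a) := ii_val w a'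
    have vb : Valued.v (ii w b') = w.valuation L (algebraMap k L b) := ii_val w b'
    have vd : Valued.v (ii w a' ^ 2 - 4 * ii w b') =
        w.valuation L (algebraMap k L ((a ^ 2 - 4 * b : 𝓞 k) : k)) := by
      rw [← ii_disc, ii_val]
      congr 1
      have e : a' ^ 2 - 4 * b' = algebraMap (𝓞 k) (𝓞 L) (a ^ 2 - 4 * b) := by
        rw [map_sub, map_mul, map_pow, map_ofNat]
      rw [e]
      rfl
    refine ⟨i, ?_, ?_, ?_, ?_⟩
    · rw [va]; exact_mod_cast g1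
    · rw [vb]; exact_mod_cast g2
    · rw [vd]; exact_mod_cast g3
    · rw [va, vb]; exact_mod_cast g4
  have hG : ∀ w, Finite ((𝓞 L)ˣ ⧸ G w) ∧ Nat.card ((𝓞 L)ˣ ⧸ G w) ≤ 8 * N w := by
    intro w
    by_cases hQ : Q w
    · obtain ⟨f1, f2⟩ := index_norm hb0' hd0' w hQ.1 (hunr w hQ.1)
      refine ⟨f1, f2.trans ?_⟩
      have : N w = Ideal.absNorm w.asIdeal := if_pos hQ
      rw [this]
      exact Nat.mul_le_mul_right _ (by norm_num)
    · obtain ⟨f1, f2⟩ := index_eight hb0' hd0' w (by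
        intro h2
        refine ⟨hunr w h2, hsm w h2 ?_⟩
        by_contra hov
        exact hQ ⟨h2, hov⟩)
      refine ⟨f1, f2.trans ?_⟩
      have := hN1 w
      omega
  haveI : ∀ w : B, Finite ((𝓞 L)ˣ ⧸ G w.1) := fun w => (hG w.1).1
  haveI : Fintype ((w : B) → ((𝓞 L)ˣ ⧸ G w.1)) := Fintype.ofFinite _
  let φ : (𝓞 L)ˣ → ((w : B) → ((𝓞 L)ˣ ⧸ G w.1)) := fun u w => (u : (𝓞 L)ˣ ⧸ G w.1)
  have hfib : ∀ q ∈ Finset.univ.image (fun i => φ (uu L i)),
      (Finset.univ.filter fun i => φ (uu L i) = q).card ≤ 2 * (P.card * T.card) := by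
    intro q hq
    rw [Finset.mem_image] at hq
    obtain ⟨i₀, -, hi₀⟩ := hq
    have hsame : ∀ i, φ (uu L i) = q → ∀ w ∈ B, uu L i₀ * uu L i ∈ G w := by
      intro i hi w hw
      have e1 : (uu L i₀ : (𝓞 L)ˣ ⧸ G w) = uu L i := by
        have e2 := congrFun (hi₀.trans hi.symm) ⟨w, hw⟩
        exact e2
      rw [QuotientGroup.eq] at e1
      have e3 : uu L i₀ * uu L i = ((uu L i₀)⁻¹ * uu L i) * (uu L i₀ * uu L i₀) := by
        rw [mul_mul_mul_comm, inv_mul_cancel, one_mul, mul_comm]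
      rw [e3]
      exact (G w).mul_mem e1 (sq_mem_GK hb0' hd0' w _)
    have hne : ∀ u : (𝓞 L)ˣ, ((u : 𝓞 L) : L) ≠ 0 := by
      intro u h0
      have : (u : 𝓞 L) = 0 := by exact_mod_cast h0
      exact u.ne_zero this
    have hc := count_classesQ h (ι := {i // φ (uu L i) = q})
      (fun i => (((uu L i₀ * uu L i.1 : (𝓞 L)ˣ) : 𝓞 L) : L)) (fun i => hne _)
      (by
        intro i w
        rw [map_mul, map_sub, map_pow, map_mul, map_neg, map_ofNat, map_ofNat, ea, eb]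
        by_cases hw : w ∈ B
        · exact (mem_GK hb0' hd0' w _).mp (hsame i.1 i.2 w hw)
        · rw [hmemB] at hw
          exact unit_goodK w hw _)
      (by
        intro i v
        rw [map_mul, map_sub, map_pow, map_mul, map_neg, map_ofNat, map_ofNat]
        exact unit_realK (fun φ => hR (φ.comp (algebraMap k L))) v (hne _))
      (by
        intro i j hij
        have e1 : IsSquare ((((uu L i₀ * uu L i.1) * (uu L i₀ * uu L j.1) : (𝓞 L)ˣ) : 𝓞 L) : L) := by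
          rw [coe_unit_mul]
          exact hij
        have e2 := isSquare_unit e1
        apply Subtype.ext
        apply uu_inj L
        obtain ⟨x, hx⟩ := e2
        refine ⟨x * (uu L i₀)⁻¹, ?_⟩
        have e3 : x * (uu L i₀)⁻¹ * (x * (uu L i₀)⁻¹) =
            (x * x) * ((uu L i₀)⁻¹ * (uu L i₀)⁻¹) := by ac_rfl
        rw [e3, ← hx]
        have e4 : uu L i₀ * uu L i.1 * (uu L i₀ * uu L j.1) * ((uu L i₀)⁻¹ * (uu L i₀)⁻¹) =
            (uu L i₀ * (uu L i₀)⁻¹) * (uu L i₀ * (uu L i₀)⁻¹) * (uu L i.1 * uu L j.1) := by ac_rfl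
        rw [e4, mul_inv_cancel, one_mul, one_mul])
      P hP T hT
    rw [← Fintype.card_subtype]
    exact hc
  have h1 := Finset.card_le_mul_card_image (f := fun i => φ (uu L i)) Finset.univ
    (2 * (P.card * T.card)) hfib
  rw [Finset.card_univ, card_uu L] at h1
  have h2 : (Finset.univ.image (fun i => φ (uu L i))).card ≤ 8 ^ B.card * ∏ w ∈ B, N w := by
    refine (Finset.card_le_univ _).trans ?_
    rw [← Nat.card_eq_fintype_card, Nat.card_pi]
    have h3 : ∏ w : B, Nat.card ((𝓞 L)ˣ ⧸ G w.1) ≤ ∏ w : B, 8 * N w.1 :=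
      Finset.prod_le_prod' fun w _ => (hG w.1).2
    refine h3.trans (le_of_eq ?_)
    rw [Finset.prod_mul_distrib, Finset.prod_const, Finset.card_univ, Fintype.card_coe,
      Finset.prod_coe_sort B N]
  have h4 : ∏ w ∈ B, N w = ∏ w ∈ B.filter Q, Ideal.absNorm w.asIdeal := by
    rw [Finset.prod_filter]
  have h5 := norm_le (K := k) (L := L) v0 hv2 (B.filter Q)
    (fun w hw => (Finset.mem_filter.mp hw).2.1) (fun w hw => (Finset.mem_filter.mp hw).2.2)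
  rw [← h4] at h5
  have hpos : 0 < ∏ w ∈ B, N w := Finset.prod_pos fun w _ => hN1 w
  refine Nat.le_of_mul_le_mul_right ?_ hpos
  calc 2 ^ Module.finrank k L * ∏ w ∈ B, N w ≤ 2 ^ Module.finrank ℚ L := h5
    _ ≤ 2 * (P.card * T.card) * (8 ^ B.card * ∏ w ∈ B, N w) :=
        h1.trans (Nat.mul_le_mul_left _ h2)
    _ = 8 ^ B.card * (2 * (P.card * T.card)) * ∏ w ∈ B, N w := by ring

end H86IK
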