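import Pool.Agent.H86.IG.Idx

/-!
A subgroup of a finite field of characteristic two which contains almost all values of an additive
polynomial has index at most four.
-/

set_option autoImplicit false

open Pool.Agent.H10

namespace H86IK

open Polynomial

/-- The additive polynomial. -/
def psi {k : Type*} [Field k] [CharP k 2] (α β γ : k) : k →+ k where
  toFun z := α * z + β * z ^ 2 + γ * z ^ 4
  map_zero' := by ring
  map_add' x y := by
    have h2 : (x + y) ^ 2 = x ^ 2 + y ^ 2 := CharTwo.add_sq x y
    have h4 : (x + y) ^ 4 = x ^ 4 + y ^ 4 := by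
      have : (x + y) ^ 4 = ((x + y) ^ 2) ^ 2 := by ring
      rw [this, h2, CharTwo.add_sq]
      ring
    rw [h2, h4]
    ring

theorem index_le_four {k : Type*} [Field k] [Finite k] [CharP k 2] (K : AddSubgroup k)
    {a d α β γ : k} (hn : α ≠ 0 ∨ β ≠ 0 ∨ γ ≠ 0)
    (h : ∀ z : k, 1 + d * z ≠ 0 → 1 + a * z + a * d * z ^ 2 ≠ 0 →
      α * z + β * z ^ 2 + γ * z ^ 4 ∈ K) : Nat.card (k ⧸ K) ≤ 4 := by
  classical
  have := Fintype.ofFinite k
  set ψ := psi (k := k) α β γ with hψ
  have hψa : ∀ z, ψ z = α * z + β * z ^ 2 + γ * z ^ 4 := fun z => rfl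
  have hidx : ∀ M : AddSubgroup k, Nat.card (k ⧸ M) = M.index := fun M => rfl
  by_cases hH : K.comap ψ = ⊤
  · have hle : ψ.range ≤ K := by
      rintro _ ⟨z, rfl⟩
      have : z ∈ K.comap ψ := by rw [hH]; trivial
      exact this
    have h1 : Nat.card (k ⧸ ψ.range) ≤ 4 := by
      apply index_range_le
      refine card_ker_le (p := C γ * X ^ 4 + C β * X ^ 2 + C α * X) ?_ ?_ ?_
      · intro h0
        have c1 := congrArg (fun q : k[X] => q.coeff 1) h0
        have c2 := congrArg (fun q : k[X] => q.coeff 2) h0
        have c4 := congrArg (fun q : k[X] => q.coeff 4) h0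
        simp only [coeff_add, coeff_C_mul, coeff_X_pow, coeff_X, coeff_zero] at c1 c2 c4
        norm_num at c1 c2 c4
        rcases hn with hn | hn | hn
        · exact hn c1
        · exact hn c2
        · exact hn c4
      · compute_degree
      · intro x hx
        rw [hψa] at hx
        simp only [IsRoot, eval_add, eval_mul, eval_C, eval_pow, eval_X]
        rw [← hx]
        ring
    rw [hidx] at h1 ⊢
    have h2 : K.index ∣ ψ.range.index := AddSubgroup.index_dvd_of_le hle
    exact (Nat.le_of_dvd (Nat.pos_of_ne_zero AddSubgroup.index_ne_zero_of_finite) h2).trans h1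
  · set H := K.comap ψ with hHd
    set q : k[X] := (C d * X + C 1) * (C (a * d) * X ^ 2 + C a * X + C 1) with hq
    have hq0 : q ≠ 0 := by
      rw [hq]
      refine mul_ne_zero ?_ ?_
      · intro h0
        have c0 := congrArg (fun q : k[X] => q.coeff 0) h0
        simp at c0
      · intro h0
        have c0 := congrArg (fun q : k[X] => q.coeff 0) h0
        simp at c0
    have hqd : q.natDegree ≤ 3 := by
      rw [hq]
      compute_degree
    have hsub : (H : Set k)ᶜ ⊆ (q.roots.toFinset : Set k) := by
      intro z hz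
      rw [Finset.mem_coe, Multiset.mem_toFinset, mem_roots hq0]
      by_contra hr
      apply hz
      change ψ z ∈ K
      rw [hψa]
      simp only [hq, IsRoot, eval_add, eval_mul, eval_C, eval_pow, eval_X, mul_eq_zero, not_or] at hr
      refine h z ?_ ?_
      · rw [add_comm]; exact hr.1
      · intro h0
        apply hr.2
        rw [← h0]
        ring
    have h1 : ((H : Set k)ᶜ).ncard ≤ 3 := by
      have h2 := Set.ncard_le_ncard hsub (Finset.finite_toSet _)
      rw [Set.ncard_coe_finset] at h2
      exact h2.trans ((Multiset.toFinset_card_le _).trans ((card_roots' q).trans hqd))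
    have h2 : (H : Set k).ncard + ((H : Set k)ᶜ).ncard = Nat.card k := Set.ncard_add_ncard_compl _
    have h3 : Nat.card H * H.index = Nat.card k := AddSubgroup.card_mul_index H
    have h4 : Nat.card H = (H : Set k).ncard := Nat.card_coe_set_eq (H : Set k)
    have h5 : 2 ≤ H.index := by
      have h6 : H.index ≠ 1 := fun h7 => hH (AddSubgroup.index_eq_one.1 h7)
      have h7 : H.index ≠ 0 := AddSubgroup.index_ne_zero_of_finite
      omega
    have h6 : Nat.card k ≤ 6 := by
      have h7 : Nat.card H * 2 ≤ Nat.card k := by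
        rw [← h3]
        exact Nat.mul_le_mul_left _ h5
      omega
    obtain ⟨n, -, hn2⟩ := FiniteField.card k 2
    rw [← Nat.card_eq_fintype_card] at hn2
    have h7 : Nat.card k ≤ 4 := by
      rw [hn2] at h6 ⊢
      have h8 : (n : ℕ) < 3 := by
        by_contra h9
        have h10 : 2 ^ 3 ≤ 2 ^ (n : ℕ) := Nat.pow_le_pow_right (by norm_num) (by omega)
        omega
      calc 2 ^ (n : ℕ) ≤ 2 ^ 2 := Nat.pow_le_pow_right (by norm_num) (by omega)
        _ = 4 := by norm_num
    have h8 : Nat.card K * K.index = Nat.card k := AddSubgroup.card_mul_index K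
    have h9 : 0 < Nat.card K := Nat.card_pos
    rw [hidx]
    calc K.index = 1 * K.index := (one_mul _).symm
      _ ≤ Nat.card K * K.index := Nat.mul_le_mul_right _ h9
      _ = Nat.card k := h8
      _ ≤ 4 := h7

end H86IK
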