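import Pool.Agent.H86.IK.Grw
import Pool.Agent.H86.IG.Kgr
import Pool.Agent.H68.QS.Lay

/-!
Growth of the two-Selmer group in the cyclotomic towers over a base field.
-/

set_option autoImplicit false
set_option linter.style.haveILetI false
open scoped Classical

open WithZero WeierstrassCurve IsDedekindDomain NumberField NumberField.Units Pool.Agent.H10 H5SW

namespace H86IK

open H86IG

/-- Growth of the two-Selmer group in the cyclotomic towers over `k`. -/
theorem growth_layK (p : ℕ) [Fact p.Prime] (hp2 : p ≠ 2) (k : Type) [Field k] [NumberField k]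
    (hk : H73IS.TwoBase k) {a b : 𝓞 k} (hb0 : b ≠ 0) (hd0 : a ^ 2 - 4 * b ≠ 0)
    (hR : H73IS.RR k a b) (v0 : HeightOneSpectrum (𝓞 k)) (hv2 : (2 : 𝓞 k) ∈ v0.asIdeal)
    (hS : H73IS.SmallAt v0 a b) :
    ∃ C : ℕ, ∀ (L : Type) [Field L] [NumberField L] [Algebra k L], H73IS.IsLay p k L →
      ∀ (E : WeierstrassCurve L), E = ⟨0, algebraMap k L a, 0, algebraMap k L b, 0⟩ →
      ∀ (P : Finset E.toAffine.Point) (T : Finset ((AlgebraicClosure L ≃ₐ[L] AlgebraicClosure L) →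
        (E.baseChange (AlgebraicClosure L)).toAffine.Point)),
      (∀ X : E.toAffine.Point, ∃ p ∈ P, ∃ S, X = p + (S + S)) →
      (∀ f, IsCocycle L E f → IsLocTriv L E f → IsCobound L E (fun σ => f σ + f σ) →
        ∃ t ∈ T, IsCobound L E (fun σ => f σ - t σ)) →
      2 ^ Module.finrank k L ≤ C * (P.card * T.card) := by
  set z : 𝓞 k := 2 * b * (a ^ 2 - 4 * b) with hz
  have hz0 : z ≠ 0 := mul_ne_zero (mul_ne_zero two_ne_zero hb0) hd0
  set D : ℤ := (Ideal.absNorm (Ideal.span {z}) : ℤ) with hD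
  have hD0 : D ≠ 0 := by
    rw [hD]
    have h1 : Ideal.absNorm (Ideal.span {z}) ≠ 0 := by
      rw [Ne, Ideal.absNorm_eq_zero_iff, Ideal.span_singleton_eq_bot]
      exact hz0
    exact_mod_cast h1
  have hzD : z ∣ (D : 𝓞 k) := by
    have h1 := Ideal.absNorm_mem (Ideal.span {z})
    rw [Ideal.mem_span_singleton] at h1
    rw [hD]
    exact_mod_cast h1
  obtain ⟨s, hs⟩ := bad_count (p := p) hp2 hD0
  refine ⟨8 ^ (Module.finrank ℚ k * s) * 2, ?_⟩
  intro L _ _ _ hL E hE P T hP hT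
  obtain ⟨L', _, _, _, hL', hd⟩ := H68QS.lay_sub hp2 hk hL
  haveI := hL.1
  have h : H73IS.IsTw E (algebraMap k L a) (algebraMap k L b) := by
    subst hE
    refine ⟨rfl, rfl, rfl, rfl, rfl, ?_, ?_, two_ne_zero⟩
    · rw [Ne, map_eq_zero]
      exact_mod_cast hb0
    · have e : algebraMap k L a ^ 2 - 4 * algebraMap k L b =
          algebraMap k L (algebraMap (𝓞 k) k (a ^ 2 - 4 * b)) := by
        rw [map_sub, map_mul, map_pow, map_ofNat, map_sub, map_mul, map_pow, map_ofNat]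
      rw [e, Ne, map_eq_zero, map_eq_zero_iff _ (FaithfulSMul.algebraMap_injective (𝓞 k) k)]
      exact hd0
  refine (growthK hb0 hd0 hR v0 hv2 hS (H68QS.two_unramified_lay hp2 hk hL) h P hP T hT).trans ?_
  rw [mul_assoc (8 ^ (Module.finrank ℚ k * s)) 2]
  refine Nat.mul_le_mul_right _ (Nat.pow_le_pow_right (n := 8) (by norm_num) ?_)
  refine le_trans ?_ ((ncard_above (K := L') hD0).trans (Nat.mul_le_mul hd (hs L' hL')))
  refine Set.ncard_le_ncard ?_ (bad_fin (L := L) hD0)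
  intro w hw
  change (D : 𝓞 L) ∈ w.asIdeal
  have h1 : algebraMap (𝓞 k) (𝓞 L) z ∈ w.asIdeal := hw
  obtain ⟨c, hc⟩ := hzD
  have h2 : (D : 𝓞 L) = algebraMap (𝓞 k) (𝓞 L) z * algebraMap (𝓞 k) (𝓞 L) c := by
    rw [← map_mul, ← hc, map_intCast]
  rw [h2]
  exact Ideal.mul_mem_right _ _ h1

end H86IK
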