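import Pool.Agent.H86.IG.Df

/-!
Soluble classes at two from a small parameter, coefficients in the field.
-/

set_option autoImplicit false

open WithZero Pool.Agent.H10

namespace H86IK

open H86IG

variable {F : Type*} [Field F] {V : Valuation F (WithZero (Multiplicative ℤ))}

theorem twoQ_lift (h2 : V 2 = exp (-1 : ℤ))
    (hH : ∀ x : F, V x ≤ exp (-3 : ℤ) → IsSquare (1 + x)) {A c α γ a2 c2 s κ : F}
    (hcv : V c ≤ 1) (hA : A = α ^ 2 + 2 * a2) (hc : c = γ ^ 2 + 2 * c2)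
    (hs : V s ≤ 1)
    (hκ : V κ ≤ 1) (h1 : V (1 - c * s ^ 4) = 1)
    (hP : V (1 + α * s + γ * s ^ 2) = 1)
    (hE : V (κ * (1 - c * s ^ 4) + (a2 * s ^ 2 + c2 * s ^ 4 - (α * s + γ * s ^ 2 +
      α * γ * s ^ 3))) < 1) : TwoQ V A c κ := by
  obtain ⟨q, hq⟩ : ∃ q : F, q = c * s ^ 4 := ⟨_, rfl⟩
  have hqv : V q ≤ 1 := by
    rw [hq]
    exact V_mul_le hcv (V_pow_le hs 4)
  have h20 : (2 : F) ≠ 0 := by
    intro h
    rw [h, map_zero] at h2
    exact exp_ne_zero h2.symm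
  obtain ⟨E', hE'⟩ : ∃ E' : F, 2 * E' = κ * (1 - c * s ^ 4) + (a2 * s ^ 2 +
      c2 * s ^ 4 - (α * s + γ * s ^ 2 + α * γ * s ^ 3)) :=
    ⟨(κ * (1 - c * s ^ 4) + (a2 * s ^ 2 +
      c2 * s ^ 4 - (α * s + γ * s ^ 2 + α * γ * s ^ 3))) / 2, by field_simp⟩
  have hE'v : V E' ≤ 1 := by
    rw [← hE'] at hE
    have h3 := le_exp_neg_one hE
    rw [map_mul, h2] at h3
    have h4 : exp (-1 : ℤ) * V E' ≤ exp (-1 : ℤ) * 1 := by
      rw [mul_one]
      exact h3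
    exact le_of_mul_le_mul_left h4 exp_pos
  obtain ⟨u0, hu0⟩ : ∃ u0 : F, u0 = 1 + 2 * κ := ⟨_, rfl⟩
  have hu0v : V u0 = 1 := by
    rw [hu0]
    exact Valuation.map_one_add_of_lt V (V_two_mul_lt h2 hκ)
  have hu00 : u0 ≠ 0 := ne_zero_of_V hu0v
  have hq0 : 1 - q ≠ 0 := by
    rw [hq]
    exact ne_zero_of_V h1
  obtain ⟨m, hm⟩ : ∃ m : F, m = E' + q * κ ^ 2 / u0 := ⟨_, rfl⟩
  have hmv : V m ≤ 1 := by
    rw [hm]
    refine V_add_le hE'v ?_
    rw [map_div₀, hu0v, div_one]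
    exact V_mul_le hqv (V_pow_le hκ 2)
  obtain ⟨r, hr⟩ : ∃ r : F, r = -m / (1 - q) := ⟨_, rfl⟩
  have hrm : m = -r * (1 - q) := by
    rw [hr]
    field_simp
  have hrv : V r ≤ 1 := by
    rw [hr, map_div₀, Valuation.map_neg, hq, h1, div_one]
    exact hmv
  obtain ⟨u, hu⟩ : ∃ u : F, u = u0 + 4 * r := ⟨_, rfl⟩
  have hk2 : V (κ + 2 * r) ≤ 1 := V_add_le hκ (V_two_mul_lt h2 hrv).le
  have huv : V u = 1 := by
    have e : u = 1 + 2 * (κ + 2 * r) := by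
      rw [hu, hu0]
      ring
    rw [e]
    exact Valuation.map_one_add_of_lt V (V_two_mul_lt h2 hk2)
  have hun : u ≠ 0 := ne_zero_of_V huv
  obtain ⟨P, hPd⟩ : ∃ P : F, P = 1 + α * s + γ * s ^ 2 := ⟨_, rfl⟩
  rw [← hPd] at hP
  have hP0 : P ≠ 0 := ne_zero_of_V hP
  have hid0 : u0 + A * s ^ 2 + q / u0 = P ^ 2 + 4 * m := by
    have e1 : q / u0 = q - 2 * κ * q + 4 * (q * κ ^ 2 / u0) := by
      field_simp
      rw [hu0]
      ring
    rw [hm, e1, hPd, hu0, hq, hA]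
    have hE'' : 4 * E' = 2 * (κ * (1 - c * s ^ 4) + (a2 * s ^ 2 +
      c2 * s ^ 4 - (α * s + γ * s ^ 2 + α * γ * s ^ 3))) := by
      rw [← hE']; ring
    rw [mul_add, hE'']
    rw [hc]
    ring
  obtain ⟨y, hy⟩ : ∃ y : F, y = r * q * (u * u0 - 1) / (u * u0) := ⟨_, rfl⟩
  have hyv : V y < 1 := by
    rw [hy, map_div₀, map_mul V u u0, huv, hu0v, mul_one, div_one]
    refine V_mul_lt (V_mul_le hrv hqv) ?_
    have e : u * u0 - 1 = 2 * (κ + 2 * r + κ + 2 * ((κ + 2 * r) * κ)) := by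
      rw [hu, hu0]
      ring
    rw [e]
    refine V_two_mul_lt h2 (V_add_le (V_add_le hk2 hκ) ?_)
    exact (V_two_mul_lt h2 (V_mul_le hk2 hκ)).le
  have hid : u + A * s ^ 2 + q / u = P ^ 2 + 4 * y := by
    have e1 : q / u = q / u0 - 4 * (r * q / (u * u0)) := by
      rw [hu]
      rw [hu] at hun
      field_simp
      ring
    have e2 : y = r * q - r * q / (u * u0) := by
      rw [hy]
      field_simp
    rw [e1, e2]
    linear_combination hid0 + 4 * hrm + hu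
  obtain ⟨t, ht⟩ := hH (4 * y / P ^ 2) (by
    rw [map_div₀, map_pow, hP, one_pow, div_one]
    exact V_four_mul h2 hyv)
  have hsq : (P * t) ^ 2 = u + A * s ^ 2 + q / u := by
    rw [hid]
    have e : (P * t) ^ 2 = P ^ 2 * (t * t) := by ring
    rw [e, ← ht]
    field_simp
  refine ⟨u, 1, hun, one_ne_zero, ⟨1, s, P * t, Or.inl one_ne_zero, ?_⟩, ?_⟩
  · rw [hsq, hq]
    field_simp
  · have e : u * 1 ^ 2 - (1 + 2 * κ) = 4 * r := by
      rw [hu, hu0]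
      ring
    rw [e]
    exact V_four_mul_le h2 hrv

end H86IK
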