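import Pool.Agent.H86.IK.Psi
import Pool.Agent.H86.IK.Idx
import Pool.Agent.H86.IG.Pig

/-!
Pigeonhole at a place above two, coefficients in the field.
-/

set_option autoImplicit false

open WithZero Pool.Agent.H10

namespace H86IK

open H86IG

variable {F : Type*} [Field F] {V : Valuation F (WithZero (Multiplicative ℤ))} {k : Type*} [Field k]
  {ρ : V.integer →+* k}

/-- The local condition at two (for the reduced pair). -/
def SmallV (V : Valuation F (WithZero (Multiplicative ℤ))) (A c : F) : Prop :=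
  V A ≤ exp (-1 : ℤ) ∧ V (A ^ 2 - 4 * c) ≤ exp (-4 : ℤ)

theorem half (h2 : V 2 = exp (-1 : ℤ)) {x : F} (hx : V x < 1) : ∃ y : F, V y ≤ 1 ∧ x = 2 * y := by
  have h20 : (2 : F) ≠ 0 := by
    intro h
    rw [h, map_zero] at h2
    exact exp_ne_zero h2.symm
  refine ⟨x / 2, ?_, by field_simp⟩
  rw [map_div₀, h2, div_le_one₀ (zero_lt_iff.mpr exp_ne_zero)]
  exact le_exp_neg_one hx

theorem sqrt_res [Finite k] [CharP k 2] (hρs : Function.Surjective ρ)
    (hρ : ∀ x : V.integer, ρ x = 0 ↔ V x < 1) (x : V.integer) :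
    ∃ y : V.integer, V ((x : F) - (y : F) ^ 2) < 1 := by
  obtain ⟨r, hr⟩ := FiniteField.isSquare_of_char_two (ringChar.eq k 2) (ρ x)
  obtain ⟨s, rfl⟩ := hρs r
  refine ⟨s, ?_⟩
  have h3 : V ((x - s ^ 2 : V.integer) : F) < 1 := by
    rw [← hρ, map_sub, map_pow, hr, pow_two, sub_self]
  exact h3

theorem not_small_coeff (h2 : V 2 = exp (-1 : ℤ))
    {A c α δ a2 c2 : F} (hα : V α ≤ 1) (hδ : V δ ≤ 1) (ha2 : V a2 ≤ 1) (hc2 : V c2 ≤ 1)
    (hA : A = α ^ 2 + 2 * a2) (hc : c = δ ^ 4 + 2 * c2) (hS : ¬ SmallV V A c)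
    (h1 : V α < 1) (h3 : V (α * δ + a2 + δ ^ 2) < 1) :
    ¬ V ((a2 + δ ^ 2) * δ ^ 2 + c2) < 1 := by
  intro h4
  apply hS
  obtain ⟨α', hα', rfl⟩ := half h2 h1
  have hv : V (a2 + δ ^ 2) < 1 := by
    have e : a2 + δ ^ 2 = (2 * α' * δ + a2 + δ ^ 2) - 2 * (α' * δ) := by ring
    rw [e]
    exact V_sub_lt h3 (V_two_mul_lt h2 (V_mul_le hα' hδ))
  obtain ⟨m, hm, hm'⟩ := half h2 hv
  have hv2 : V c2 < 1 := by
    have e : c2 = ((a2 + δ ^ 2) * δ ^ 2 + c2) - 2 * (m * δ ^ 2) := by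
      rw [hm']; ring
    rw [e]
    exact V_sub_lt h4 (V_two_mul_lt h2 (V_mul_le hm (V_pow_le hδ 2)))
  obtain ⟨n, hn, hn'⟩ := half h2 hv2
  have ea2 : a2 = 2 * m - δ ^ 2 := by linear_combination hm'
  constructor
  · rw [hA]
    apply le_exp_neg_one
    have e : (2 * α') ^ 2 + 2 * a2 = 2 * (2 * α' ^ 2 + a2) := by ring
    rw [e]
    exact V_two_mul_lt h2 (V_add_le (V_two_mul_lt h2 (V_pow_le hα' 2)).le ha2)
  · have e : A ^ 2 - 4 * c = 2 ^ 4 * (α' ^ 4 + α' ^ 2 * a2 + m ^ 2 - m * δ ^ 2 - n) := by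
      rw [hA, hc, hn', ea2]
      ring
    rw [e, map_mul, map_pow, h2]
    have e4 : (exp (-1 : ℤ) : WithZero (Multiplicative ℤ)) ^ 4 = exp (-4 : ℤ) := by
      rw [← exp_nsmul]
      norm_num
    rw [e4]
    calc exp (-4 : ℤ) * V (α' ^ 4 + α' ^ 2 * a2 + m ^ 2 - m * δ ^ 2 - n) ≤
        exp (-4 : ℤ) * 1 := by
          refine mul_le_mul_right ?_ _
          repeat' first | assumption | apply V_sub_le | apply V_add_le | apply V_mul_le | apply V_pow_le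
      _ = _ := _root_.mul_one _

theorem two_pigeonQ [CharZero F] [Finite k] (h2 : V 2 = exp (-1 : ℤ))
    (hρs : Function.Surjective ρ) (hρ : ∀ x : V.integer, ρ x = 0 ↔ V x < 1)
    (hH : ∀ x : F, V x ≤ exp (-3 : ℤ) → IsSquare (1 + x)) {A c : V.integer} (hcF : (c : F) ≠ 0)
    (hdF : (A : F) ^ 2 - 4 * (c : F) ≠ 0) (hS : ¬ SmallV V (A : F) (c : F)) (u : Fin 9 → F)
    (hu : ∀ i, V (u i) = 1) : ∃ i j, i ≠ j ∧ H73IS.QPt (A : F) (c : F) (u i * u j) := by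
  classical
  have hch := charP_two h2 hρ
  have h20 : (2 : F) ≠ 0 := two_ne_zero
  choose t κ ht hκ using fun i => exists_kappa h2 hρs hρ (hu i)
  have u0 : ∀ i, u i ≠ 0 := fun i => ne_zero_of_V (hu i)
  obtain ⟨α, hα⟩ := sqrt_res hρs hρ A
  obtain ⟨γ, hγ⟩ := sqrt_res hρs hρ c
  obtain ⟨δ, hδ⟩ := sqrt_res hρs hρ γ
  obtain ⟨a2, ha2, hA2⟩ := half h2 hα
  have hcδ : V ((c : F) - (δ : F) ^ 4) < 1 := by
    have e : (c : F) - (δ : F) ^ 4 = ((c : F) - (γ : F) ^ 2) +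
        ((γ : F) - (δ : F) ^ 2) * ((γ : F) + (δ : F) ^ 2) := by ring
    rw [e]
    refine V_add_lt hγ ?_
    rw [mul_comm]
    exact V_mul_lt (V_add_le γ.2 (V_pow_le δ.2 2)) hδ
  obtain ⟨c2, hc2, hC2⟩ := half h2 hcδ
  have eA : (A : F) = (α : F) ^ 2 + 2 * a2 := by linear_combination hA2
  have eC : (c : F) = (δ : F) ^ 4 + 2 * c2 := by linear_combination hC2
  let a2' : V.integer := ⟨a2, ha2⟩
  let c2' : V.integer := ⟨c2, hc2⟩
  let K : AddSubgroup k :=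
    { carrier := {x | ∃ κ : V.integer, ρ κ = x ∧ TwoQ V (A : F) (c : F) κ}
      add_mem' := by
        rintro x y ⟨κ, hκ, H⟩ ⟨κ', hκ', H'⟩
        exact ⟨κ + κ', by rw [map_add, hκ, hκ'], Pig_add h2 hcF hdF κ.2 κ'.2 H H'⟩
      zero_mem' := ⟨0, map_zero _, Pig_zero V _ _⟩
      neg_mem' := by
        rintro x ⟨κ, hκ, H⟩
        exact ⟨κ, by rw [hκ, CharTwo.neg_eq], H⟩ }
  have hK : ∀ κ : V.integer, ρ κ ∈ K → TwoQ V (A : F) (c : F) κ := by
    rintro κ ⟨κ', hκ', H⟩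
    exact Pig_congr h2 (Pig_res hρ hκ') H
  have hcard : Nat.card (k ⧸ K) ≤ 4 := by
    refine index_le_four K (a := ρ α) (d := ρ δ) (α := ρ α) (β := ρ (α * δ + a2' + δ ^ 2))
      (γ := ρ ((a2' + δ ^ 2) * δ ^ 2 + c2')) ?_ ?_
    · by_contra hcon
      push_neg at hcon
      obtain ⟨g1, g2, g3⟩ := hcon
      rw [hρ] at g1 g2 g3
      exact not_small_coeff h2 α.2 δ.2 ha2 hc2 eA eC hS g1 g2 g3
    · intro z hz hz'
      obtain ⟨Z, rfl⟩ := hρs z
      have v1 : V ((1 + δ * Z : V.integer) : F) = 1 := by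
        apply val_one_of_res hρ
        rw [map_add, map_one, map_mul]
        exact hz
      have v2 : V ((1 + α * Z + α * δ * Z ^ 2 : V.integer) : F) = 1 := by
        apply val_one_of_res hρ
        simp only [map_add, map_one, map_mul, map_pow]
        exact hz'
      refine ⟨α * Z + (α * δ + a2' + δ ^ 2) * Z ^ 2 + ((a2' + δ ^ 2) * δ ^ 2 + c2') * Z ^ 4,
        ?_, ?_⟩
      · simp only [map_add, map_mul, map_pow]
      · exact twoQ_poly h2 hH α.2 δ.2 ha2 hc2 eA eC Z.2 v1 v2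
  let Q := k ⧸ K
  have := Fintype.ofFinite Q
  have hQ : Fintype.card Q ≤ 4 := by
    rw [← Nat.card_eq_fintype_card]
    exact hcard
  obtain ⟨q, hq⟩ := Fintype.exists_lt_card_fiber_of_mul_lt_card
    (f := fun i : Fin 9 => (ρ (κ i) : Q)) (n := 2) (by
      rw [Fintype.card_fin]; change Fintype.card Q * 2 < 9; omega)
  rw [Finset.two_lt_card] at hq
  obtain ⟨i, hi, j, hj, l, hl, hij, hil, hjl⟩ := hq
  simp only [Finset.mem_filter, Finset.mem_univ, true_and] at hi hj hl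
  -- pairs in the same class
  have pair : ∀ i j : Fin 9, (ρ (κ i) : Q) = ρ (κ j) → ∃ δ T : F, δ ≠ 0 ∧ T ≠ 0 ∧
      H73IS.QPt (A : F) (c : F) δ ∧ V (u i * u j * δ * T ^ 2 - 1) ≤ exp (-2 : ℤ) := by
    intro i j h
    have h1 := QuotientAddGroup.eq.mp h
    rw [CharTwo.neg_eq, ← map_add] at h1
    obtain ⟨δ, r, hδ, hr, hC, hv⟩ := hK _ h1
    refine ⟨δ, t i * t j * r, hδ, mul_ne_zero (mul_ne_zero (ht i) (ht j)) hr, hC, ?_⟩
    have hv : V (δ * r ^ 2 - (1 + 2 * ((κ i : F) + κ j))) ≤ exp (-2 : ℤ) := hv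
    have vi : V (κ i : F) ≤ 1 := (κ i).2
    have vj : V (κ j : F) ≤ 1 := (κ j).2
    have u1 : V ((1 + 2 * (κ i : F)) * (1 + 2 * (κ j : F))) ≤ 1 := by
      have q : ∀ x : F, V x ≤ 1 → V (1 + 2 * x) ≤ 1 := fun x hx =>
        V_add_le (by rw [map_one]) (V_two_mul_lt h2 hx).le
      exact V_mul_le (q _ vi) (q _ vj)
    have e3 : u i * u j * δ * (t i * t j * r) ^ 2 - 1 =
        4 * ((κ i : F) + κ j + (κ i : F) * κ j + ((κ i : F) + κ j) ^ 2 +
          2 * ((κ i : F) * κ j * ((κ i : F) + κ j))) +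
        (1 + 2 * (κ i : F)) * (1 + 2 * (κ j : F)) *
          (δ * r ^ 2 - (1 + 2 * ((κ i : F) + κ j))) := by
      have e2 : u i * u j * δ * (t i * t j * r) ^ 2 =
          (1 + 2 * (κ i : F)) * (1 + 2 * (κ j : F)) * (δ * r ^ 2) := by
        rw [← hκ, ← hκ]; ring
      rw [e2]
      ring
    rw [e3]
    refine V_add_le (V_four_mul_le h2 ?_) ?_
    · refine V_add_le (V_add_le (V_add_le (V_add_le vi vj) (V_mul_le vi vj))
        (V_pow_le (V_add_le vi vj) 2)) ?_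
      exact (V_two_mul_lt h2 (V_mul_le (V_mul_le vi vj) (V_add_le vi vj))).le
    · rw [map_mul]
      calc V ((1 + 2 * (κ i : F)) * (1 + 2 * (κ j : F))) *
            V (δ * r ^ 2 - (1 + 2 * ((κ i : F) + κ j))) ≤ 1 * exp (-2 : ℤ) :=
            mul_le_mul' u1 hv
        _ = _ := _root_.one_mul _
  obtain ⟨δ, T, hδ, hT, hC, hv⟩ := pair i j (hi.trans hj.symm)
  obtain ⟨δ', T', hδ', hT', hC', hv'⟩ := pair i l (hi.trans hl.symm)
  have rm : ∀ x T : F, T ≠ 0 → IsSquare (x * T ^ 2) → IsSquare x := by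
    rintro x T hT ⟨s, hs⟩
    refine ⟨s / T, ?_⟩
    field_simp
    linear_combination hs
  rcases four_pair h2 hρs hρ hH hv hv' with h | h | h
  · exact ⟨i, j, hij, QPt.of_mul_square hδ (mul_ne_zero (u0 i) (u0 j)) hC (rm _ _ hT h)⟩
  · exact ⟨i, l, hil, QPt.of_mul_square hδ' (mul_ne_zero (u0 i) (u0 l)) hC' (rm _ _ hT' h)⟩
  · refine ⟨j, l, hjl, ?_⟩
    refine QPt.of_mul_square (mul_ne_zero hδ hδ')
      (mul_ne_zero (u0 j) (u0 l)) (hC.mul hcF hdF hδ hδ' hC') ?_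
    refine rm _ (u i * T * T') (mul_ne_zero (mul_ne_zero (u0 i) hT) hT') ?_
    have e : u j * u l * (δ * δ') * (u i * T * T') ^ 2 =
        u i * u j * δ * T ^ 2 * (u i * u l * δ' * T' ^ 2) := by ring
    rw [e]
    exact h

/-- Among more than `2 q` units two have a square product. -/
theorem two_squares [CharZero F] [Finite k] (h2 : V 2 = exp (-1 : ℤ))
    (hρs : Function.Surjective ρ) (hρ : ∀ x : V.integer, ρ x = 0 ↔ V x < 1)
    (hH : ∀ x : F, V x ≤ exp (-3 : ℤ) → IsSquare (1 + x))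
    (u : Fin (2 * Nat.card k + 1) → F)
    (hu : ∀ i, V (u i) = 1) : ∃ i j, i ≠ j ∧ IsSquare (u i * u j) := by
  classical
  have h20 : (2 : F) ≠ 0 := two_ne_zero
  choose t κ ht hκ using fun i => exists_kappa h2 hρs hρ (hu i)
  have u0 : ∀ i, u i ≠ 0 := fun i => ne_zero_of_V (hu i)
  have := Fintype.ofFinite k
  obtain ⟨q, hq⟩ := Fintype.exists_lt_card_fiber_of_mul_lt_card
    (f := fun i : Fin (2 * Nat.card k + 1) => ρ (κ i)) (n := 2) (by
      rw [Fintype.card_fin, Nat.card_eq_fintype_card]; omega)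
  rw [Finset.two_lt_card] at hq
  obtain ⟨i, hi, j, hj, l, hl, hij, hil, hjl⟩ := hq
  simp only [Finset.mem_filter, Finset.mem_univ, true_and] at hi hj hl
  have hone : ∀ i, V (1 + 2 * (κ i : F)) = 1 := fun i =>
    Valuation.map_one_add_of_lt V (V_two_mul_lt h2 (κ i).2)
  have h10 : ∀ i, (1 + 2 * (κ i : F)) ≠ 0 := fun i => ne_zero_of_V (hone i)
  have pair : ∀ i j, ρ (κ i) = ρ (κ j) →
      V ((1 + 2 * (κ j : F)) / (1 + 2 * (κ i : F)) - 1) ≤ exp (-2 : ℤ) := by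
    intro i j h
    have e : (1 + 2 * (κ j : F)) / (1 + 2 * (κ i : F)) - 1 =
        2 * ((κ j : F) - κ i) / (1 + 2 * (κ i : F)) := by
      field_simp [h10 i]
      ring
    rw [e, map_div₀, hone, div_one]
    exact V_two_mul h2 (Pig_res hρ h.symm)
  have rm : ∀ x T : F, T ≠ 0 → IsSquare (x * T ^ 2) → IsSquare x := by
    rintro x T hT ⟨s, hs⟩
    refine ⟨s / T, ?_⟩
    field_simp
    linear_combination hs
  have hv := pair i j (hi.trans hj.symm)
  have hv' := pair i l (hi.trans hl.symm)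
  have e1 : ∀ i j, u i * u j * (t i * t j / (1 + 2 * (κ i : F))) ^ 2 =
      (1 + 2 * (κ j : F)) / (1 + 2 * (κ i : F)) := by
    intro i j
    have e2 : u i * u j * (t i * t j / (1 + 2 * (κ i : F))) ^ 2 =
        (u i * t i ^ 2) * (u j * t j ^ 2) / (1 + 2 * (κ i : F)) ^ 2 := by
      field_simp [h10 i]
    rw [e2, hκ, hκ]
    field_simp [h10 i]
  rcases four_pair h2 hρs hρ hH hv hv' with h | h | h
  · refine ⟨i, j, hij, rm _ (t i * t j / (1 + 2 * (κ i : F)))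
      (div_ne_zero (mul_ne_zero (ht i) (ht j)) (h10 i)) ?_⟩
    rw [e1]
    exact h
  · refine ⟨i, l, hil, rm _ (t i * t l / (1 + 2 * (κ i : F)))
      (div_ne_zero (mul_ne_zero (ht i) (ht l)) (h10 i)) ?_⟩
    rw [e1]
    exact h
  · refine ⟨j, l, hjl, rm _ (u i * (t i * t j / (1 + 2 * (κ i : F))) *
      (t i * t l / (1 + 2 * (κ i : F)))) (mul_ne_zero (mul_ne_zero (u0 i)
      (div_ne_zero (mul_ne_zero (ht i) (ht j)) (h10 i)))
      (div_ne_zero (mul_ne_zero (ht i) (ht l)) (h10 i))) ?_⟩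
    have e3 : u j * u l * (u i * (t i * t j / (1 + 2 * (κ i : F))) *
        (t i * t l / (1 + 2 * (κ i : F)))) ^ 2 =
        (u i * u j * (t i * t j / (1 + 2 * (κ i : F))) ^ 2) *
        (u i * u l * (t i * t l / (1 + 2 * (κ i : F))) ^ 2) := by ring
    rw [e3, e1, e1]
    exact h

end H86IK
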