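import Pool.Agent.H86.IK.Pig
import Pool.Agent.H86.IG.Grw

/-!
Unit classes at the places of a number field, coefficients in the field.
-/

set_option autoImplicit false
set_option linter.style.haveILetI false
open scoped Classical

open WithZero WeierstrassCurve IsDedekindDomain NumberField NumberField.Units Pool.Agent.H10 H5SW

namespace H86IK

open H86IG

section

variable {L : Type} [Field L] [NumberField L] (w : HeightOneSpectrum (𝓞 L))

/-- The image in the completion. -/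
noncomputable abbrev ii (x : 𝓞 L) : w.adicCompletion L := algebraMap L (w.adicCompletion L) (x : L)

theorem ii_val (x : 𝓞 L) : Valued.v (ii w x) = w.valuation L (x : L) := valued_algebraMap w _

theorem ii_le (x : 𝓞 L) : Valued.v (ii w x) ≤ 1 := by
  rw [ii_val]
  exact w.valuation_le_one x

theorem ii_sub (x y : 𝓞 L) : ii w (x - y) = ii w x - ii w y := by
  simp [ii, map_sub]

theorem ii_mul (x y : 𝓞 L) : ii w (x * y) = ii w x * ii w y := by
  simp [ii, map_mul]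

theorem ii_pow (x : 𝓞 L) (n : ℕ) : ii w (x ^ n) = ii w x ^ n := by
  simp [ii, map_pow]

theorem ii_res {k : Type} [Field k]
    {ρ : (Valued.v : Valuation (w.adicCompletion L) (WithZero (Multiplicative ℤ))).integer →+* k}
    (hρ : ∀ x : (Valued.v : Valuation (w.adicCompletion L) (WithZero (Multiplicative ℤ))).integer,
      ρ x = 0 ↔ Valued.v (x : w.adicCompletion L) < 1) (x : 𝓞 L) (hx : x ∉ w.asIdeal) :
    ρ ⟨ii w x, ii_le w x⟩ ≠ 0 := by
  intro h
  rw [hρ] at h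
  have h1 : Valued.v (ii w x) < 1 := h
  rw [ii_val, val_eq_one_of_notMem hx] at h1
  exact lt_irrefl _ h1

/-- Good places. -/
theorem unit_goodK {a b : 𝓞 L} (hw : 2 * b * (a ^ 2 - 4 * b) ∉ w.asIdeal) (u : (𝓞 L)ˣ) :
    H73IS.QPt (-2 * ii w a) (ii w a ^ 2 - 4 * ii w b) (ii w (u : 𝓞 L)) := by
  obtain ⟨k, _, _, ρ, hρs, hρ⟩ := exists_resid w
  have h2 : (2 : 𝓞 L) ∉ w.asIdeal := fun h => hw
    (Ideal.mul_mem_right _ _ (Ideal.mul_mem_right _ _ h))
  have nB : b ∉ w.asIdeal := fun h => hw (Ideal.mul_mem_right _ _ (Ideal.mul_mem_left _ _ h))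
  have nC : a ^ 2 - 4 * b ∉ w.asIdeal := fun h => hw (Ideal.mul_mem_left _ _ h)
  let V : Valuation (w.adicCompletion L) (WithZero (Multiplicative ℤ)) := Valued.v
  let U : V.integer := ⟨ii w (u : 𝓞 L), (unit_valued w u).le⟩
  have hU : ρ U ≠ 0 := by
    intro h
    rw [hρ] at h
    exact absurd (unit_valued w u) h.ne
  have h2k := res_two w hρ h2
  let B : V.integer := ⟨ii w b, ii_le w b⟩
  let A : V.integer := ⟨ii w a, ii_le w a⟩
  have hB : ρ B ≠ 0 := ii_res w hρ b nB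
  have hD : ρ (A ^ 2 - 4 * B) ≠ 0 := by
    have e : A ^ 2 - 4 * B = ⟨ii w (a ^ 2 - 4 * b), ii_le w _⟩ := by
      apply Subtype.ext
      change ii w a ^ 2 - 4 * ii w b = ii w (a ^ 2 - 4 * b)
      rw [ii_sub, ii_mul, ii_pow]
      congr 2
      have h4 : ((4 : 𝓞 L) : L) = 4 := map_ofNat (algebraMap (𝓞 L) L) 4
      rw [ii, h4, map_ofNat]
    rw [e]
    exact ii_res w hρ _ nC
  have key := qpt_good (V := V) (ρ := ρ) hρs hρ (hS_odd w h2) h2k
    (a := -2 * A) (b := A ^ 2 - 4 * B) (u := U) hD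
    (by
      have e1 : (-2 * A) ^ 2 - 4 * (A ^ 2 - 4 * B) = 2 ^ 4 * B := by ring
      rw [e1, map_mul, map_pow, map_ofNat]
      exact mul_ne_zero (pow_ne_zero _ h2k) hB) hU
  exact key

theorem V2 (h2 : (2 : 𝓞 L) ∈ w.asIdeal) (h2' : (2 : 𝓞 L) ∉ w.asIdeal ^ 2) :
    Valued.v (2 : w.adicCompletion L) = exp (-1 : ℤ) := by
  rw [valued_ofNat w 2]
  exact val_two_of_unram h2 h2'

theorem hH2 (h2 : (2 : 𝓞 L) ∈ w.asIdeal) (h2' : (2 : 𝓞 L) ∉ w.asIdeal ^ 2)
    (x : w.adicCompletion L) (hx : Valued.v x ≤ exp (-3 : ℤ)) : IsSquare (1 + x) := by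
  let V : Valuation (w.adicCompletion L) (WithZero (Multiplicative ℤ)) := Valued.v
  have v2 : V (2 : w.adicCompletion L) = exp (-1 : ℤ) := V2 w h2 h2'
  apply isSquare_one_add two_ne_zero
  refine lt_of_le_of_lt hx ?_
  have := V_four v2
  change _ < V 4
  rw [this, exp_lt_exp]
  norm_num

/-- The local condition at two. -/
def SmallW (a b : w.adicCompletion L) : Prop := ∃ i : ℕ,
  Valued.v a ≤ exp (-(2 * i + 1 : ℤ)) ∧ Valued.v b ≤ exp (-(4 * i : ℤ)) ∧
    Valued.v (a ^ 2 - 4 * b) ≤ exp (-(4 * i + 4 : ℤ)) ∧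
    ¬ (Valued.v a ≤ exp (-(2 * i + 2 : ℤ)) ∧ Valued.v b ≤ exp (-(4 * i + 4 : ℤ)))

/-- Unit classes at the places above two, small case. -/
theorem unit_twoK {a b : w.adicCompletion L} (hb0 : b ≠ 0) (hd0 : a ^ 2 - 4 * b ≠ 0)
    (hS : SmallW w a b) (h2 : (2 : 𝓞 L) ∈ w.asIdeal) (h2' : (2 : 𝓞 L) ∉ w.asIdeal ^ 2)
    (u : Fin 9 → (𝓞 L)ˣ) :
    ∃ p q, p ≠ q ∧ H73IS.QPt (-2 * a) (a ^ 2 - 4 * b) (ii w (u p : 𝓞 L) * ii w (u q : 𝓞 L)) := by
  obtain ⟨i, ha, hb, hd, hn⟩ := hS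
  obtain ⟨k, _, _, ρ, hρs, hρ⟩ := exists_resid w
  let V : Valuation (w.adicCompletion L) (WithZero (Multiplicative ℤ)) := Valued.v
  have v2 : V (2 : w.adicCompletion L) = exp (-1 : ℤ) := V2 w h2 h2'
  have ha : V a ≤ exp (-(2 * i + 1 : ℤ)) := ha
  have hb : V b ≤ exp (-(4 * i : ℤ)) := hb
  have hd : V (a ^ 2 - 4 * b) ≤ exp (-(4 * i + 4 : ℤ)) := hd
  have hn : ¬ (V a ≤ exp (-(2 * i + 2 : ℤ)) ∧ V b ≤ exp (-(4 * i + 4 : ℤ))) := hn
  have hH := hH2 w h2 h2'
  have h20 : ((2 : w.adicCompletion L)) ≠ 0 := two_ne_zero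
  have hp : ∀ n : ℕ, V ((2 : w.adicCompletion L) ^ n) = exp (-(n : ℤ)) := by
    intro n
    rw [map_pow, v2, ← exp_nsmul]
    congr 1
    simp
  have hdiv : ∀ (x : w.adicCompletion L) (n : ℕ) (m : ℤ),
      V (x / 2 ^ n) ≤ exp m ↔ V x ≤ exp (m - n) := by
    intro x n m
    rw [map_div₀, hp, div_le_iff₀ exp_pos, ← exp_add]
    rfl
  set A : w.adicCompletion L := -2 * a / 2 ^ (2 * (i + 1)) with hA
  set c : w.adicCompletion L := (a ^ 2 - 4 * b) / 2 ^ (4 * (i + 1)) with hc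
  have V2a : ∀ m : ℤ, V (-2 * a) ≤ exp m ↔ V a ≤ exp (m + 1) := by
    intro m
    have e : -2 * a = -(2 * a) := by ring
    have h1 : exp (-1 : ℤ) * exp (m + 1) = exp m := by
      rw [← exp_add]; congr 1; ring
    rw [e, Valuation.map_neg, map_mul, v2, ← h1]
    exact mul_le_mul_iff_right₀ exp_pos
  have VA : V A ≤ 1 := by
    rw [hA, ← exp_zero, hdiv, V2a]
    refine ha.trans ?_
    rw [exp_le_exp]
    push_cast
    omega
  have Vc : V c ≤ 1 := by
    rw [hc, ← exp_zero, hdiv]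
    refine hd.trans ?_
    rw [exp_le_exp]
    push_cast
    omega
  have hc0 : c ≠ 0 := div_ne_zero hd0 (pow_ne_zero _ h20)
  have eAc : A ^ 2 - 4 * c = b / 2 ^ (4 * i) := by
    rw [hA, hc, div_pow, ← pow_mul]
    rw [show 2 * (i + 1) * 2 = 4 * i + 4 from by ring, show 4 * (i + 1) = 4 * i + 4 from by ring,
      pow_add]
    field_simp
    ring
  have hd1 : A ^ 2 - 4 * c ≠ 0 := by
    rw [eAc]
    exact div_ne_zero hb0 (pow_ne_zero _ h20)
  have hns : ¬ SmallV V A c := by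
    rintro ⟨g1, g2⟩
    apply hn
    constructor
    · rw [hA, hdiv, V2a] at g1
      refine g1.trans ?_
      rw [exp_le_exp]
      push_cast
      omega
    · rw [eAc, hdiv] at g2
      refine g2.trans ?_
      rw [exp_le_exp]
      push_cast
      omega
  obtain ⟨p, q, hpq, hC⟩ := two_pigeonQ (V := V) v2 hρs hρ hH (A := ⟨A, VA⟩) (c := ⟨c, Vc⟩)
    hc0 hd1 hns (fun i => ii w (u i : 𝓞 L)) (fun i => unit_valued w (u i))
  refine ⟨p, q, hpq, ?_⟩
  have hC : H73IS.QPt A c (ii w (u p : 𝓞 L) * ii w (u q : 𝓞 L)) := hC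
  have h21 : ((2 : w.adicCompletion L)) ^ (i + 1) ≠ 0 := pow_ne_zero _ h20
  rw [← H73IS.QPt.scale h21] at hC
  have e5 : ((2 : w.adicCompletion L) ^ (i + 1)) ^ 2 * A = -2 * a := by
    rw [hA, ← pow_mul, mul_comm (i + 1) 2]
    field_simp
  have e6 : ((2 : w.adicCompletion L) ^ (i + 1)) ^ 4 * c = a ^ 2 - 4 * b := by
    rw [hc, ← pow_mul, mul_comm (i + 1) 4]
    field_simp
  rw [e5, e6] at hC
  exact hC

/-- The residue field. -/
theorem card_resid {k : Type} [Field k]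
    {ρ : (Valued.v : Valuation (w.adicCompletion L) (WithZero (Multiplicative ℤ))).integer →+* k}
    (hρs : Function.Surjective ρ)
    (hρ : ∀ x : (Valued.v : Valuation (w.adicCompletion L) (WithZero (Multiplicative ℤ))).integer,
      ρ x = 0 ↔ Valued.v (x : w.adicCompletion L) < 1) :
    Nat.card k = Ideal.absNorm w.asIdeal := by
  let V : Valuation (w.adicCompletion L) (WithZero (Multiplicative ℤ)) := Valued.v
  let j : 𝓞 L →+* V.integer :=
    { toFun := fun x => ⟨ii w x, ii_le w x⟩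
      map_one' := by apply Subtype.ext; simp [ii]
      map_mul' := fun x y => by apply Subtype.ext; exact ii_mul w x y
      map_zero' := by apply Subtype.ext; simp [ii]
      map_add' := fun x y => by apply Subtype.ext; simp [ii] }
  let f : 𝓞 L →+* k := ρ.comp j
  have hf : Function.Surjective f := by
    intro y
    obtain ⟨x, rfl⟩ := hρs y
    obtain ⟨a, ha⟩ := Pool.Agent.H11.exists_int_approx w x.1 x.2 1 one_ne_zero
    refine ⟨a, ?_⟩
    change ρ (j a) = ρ x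
    symm
    rw [← sub_eq_zero, ← map_sub, hρ]
    exact ha
  have hk : RingHom.ker f = w.asIdeal := by
    ext x
    rw [RingHom.mem_ker]
    change ρ (j x) = 0 ↔ _
    rw [hρ]
    change Valued.v (ii w x) < 1 ↔ _
    rw [ii_val]
    exact w.valuation_lt_one_iff_mem x
  have e := RingHom.quotientKerEquivOfSurjective hf
  rw [← Nat.card_congr e.toEquiv, ← hk]
  rfl

/-- Unit classes at the places above two, general bound. -/
theorem unit_sqK (h2 : (2 : 𝓞 L) ∈ w.asIdeal) (h2' : (2 : 𝓞 L) ∉ w.asIdeal ^ 2)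
    (u : Fin (2 * Ideal.absNorm w.asIdeal + 1) → (𝓞 L)ˣ) :
    ∃ p q, p ≠ q ∧ IsSquare (ii w (u p : 𝓞 L) * ii w (u q : 𝓞 L)) := by
  obtain ⟨k, _, _, ρ, hρs, hρ⟩ := exists_resid w
  have hk := card_resid w hρs hρ
  let V : Valuation (w.adicCompletion L) (WithZero (Multiplicative ℤ)) := Valued.v
  have v2 : V (2 : w.adicCompletion L) = exp (-1 : ℤ) := V2 w h2 h2'
  have key := two_squares (V := V) v2 hρs hρ (hH2 w h2 h2')
  rw [hk] at key
  exact key (fun i => ii w (u i : 𝓞 L)) (fun i => unit_valued w (u i))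

end

end H86IK
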