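import Pool.Agent.H86.IK.Lft
import Pool.Agent.H86.IG.Psi

/-!
Additive polynomials with soluble values, coefficients in the field.
-/

set_option autoImplicit false

open WithZero Pool.Agent.H10

namespace H86IK

open H86IG

variable {F : Type*} [Field F] {V : Valuation F (WithZero (Multiplicative ℤ))}

theorem twoQ_poly (h2 : V 2 = exp (-1 : ℤ))
    (hH : ∀ x : F, V x ≤ exp (-3 : ℤ) → IsSquare (1 + x)) {A c α δ a2 c2 : F}
    (hα : V α ≤ 1) (hδ : V δ ≤ 1) (ha2 : V a2 ≤ 1) (hc2 : V c2 ≤ 1)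
    (hA : A = α ^ 2 + 2 * a2) (hc : c = δ ^ 4 + 2 * c2) {Z : F}
    (hZ : V Z ≤ 1) (hZ1 : V (1 + δ * Z) = 1) (hZ2 : V (1 + α * Z + α * δ * Z ^ 2) = 1) :
    TwoQ V A c (α * Z + (α * δ + a2 + δ ^ 2) * Z ^ 2 + ((a2 + δ ^ 2) * δ ^ 2 + c2) * Z ^ 4) := by
  have v1 := Psi_one V
  have v2 := Psi_two V
  have v3 := Psi_three V
  have hcv : V c ≤ 1 := by
    rw [hc]
    repeat' first | assumption | apply V_sub_le | apply V_add_le | apply V_mul_le | apply V_pow_le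
  obtain ⟨κ, hκ⟩ : ∃ κ : F, κ = α * Z + (α * δ + a2 + δ ^ 2) * Z ^ 2 +
    ((a2 + δ ^ 2) * δ ^ 2 + c2) * Z ^ 4 := ⟨_, rfl⟩
  have hκ1 : V κ ≤ 1 := by
    rw [hκ]
    repeat' first | assumption | apply V_sub_le | apply V_add_le | apply V_mul_le | apply V_pow_le
  rw [← hκ]
  have hw0 : (1 + δ * Z : F) ≠ 0 := by
    intro h
    rw [h, map_zero] at hZ1
    exact zero_ne_one hZ1
  obtain ⟨s, hs⟩ : ∃ s : F, s * (1 + δ * Z) = Z := ⟨Z / (1 + δ * Z), div_mul_cancel₀ Z hw0⟩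
  have hs1 : V s ≤ 1 := by
    have h := congrArg V hs
    rw [map_mul, hZ1, mul_one] at h
    rw [h]
    exact hZ
  have s2 : s ^ 2 * (1 + δ * Z) ^ 2 = Z ^ 2 := by rw [← mul_pow, hs]
  have s3 : s ^ 3 * (1 + δ * Z) ^ 3 = Z ^ 3 := by rw [← mul_pow, hs]
  have s4 : s ^ 4 * (1 + δ * Z) ^ 4 = Z ^ 4 := by rw [← mul_pow, hs]
  have hc' : c = (δ ^ 2) ^ 2 + 2 * c2 := by rw [hc]; ring
  refine twoQ_lift h2 hH hcv hA hc' hs1 hκ1 ?_ ?_ ?_
  · rw [← Psi_mul hZ1 4]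
    have e : (1 - c * s ^ 4) * (1 + δ * Z) ^ 4 =
        1 + 2 * (2 * δ * Z + 3 * δ ^ 2 * Z ^ 2 + 2 * δ ^ 3 * Z ^ 3 - c2 * Z ^ 4) := by
      rw [hc]
      linear_combination (-(δ ^ 4 + 2 * c2)) * s4
    rw [e]
    refine Valuation.map_one_add_of_lt V (V_two_mul_lt h2 ?_)
    repeat' first | assumption | apply V_sub_le | apply V_add_le | apply V_mul_le | apply V_pow_le
  · rw [← Psi_mul hZ1 2]
    have e : (1 + α * s + δ ^ 2 * s ^ 2) * (1 + δ * Z) ^ 2 =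
        (1 + α * Z + α * δ * Z ^ 2) + 2 * (δ * Z + δ ^ 2 * Z ^ 2) := by
      linear_combination (α * (1 + δ * Z)) * hs + δ ^ 2 * s2
    rw [e, Valuation.map_add_eq_of_lt_left V ?_, hZ2]
    rw [hZ2]
    refine V_two_mul_lt h2 ?_
    repeat' first | assumption | apply V_sub_le | apply V_add_le | apply V_mul_le | apply V_pow_le
  · rw [← Psi_mul hZ1 4]
    have e : (κ * (1 - c * s ^ 4) + (a2 * s ^ 2 + c2 * s ^ 4 - (α * s + δ ^ 2 * s ^ 2 +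
        α * δ ^ 2 * s ^ 3))) * (1 + δ * Z) ^ 4 =
        2 * (κ * (2 * δ * Z + 3 * δ ^ 2 * Z ^ 2 + 2 * δ ^ 3 * Z ^ 3 - c2 * Z ^ 4) +
          (a2 - α * δ) * Z ^ 2 + (a2 * δ - 2 * α * δ ^ 2 - δ ^ 3) * Z ^ 3 +
          (a2 * δ ^ 2 + c2 - α * δ ^ 3) * Z ^ 4) := by
      rw [hc]
      linear_combination (-(κ * (δ ^ 4 + 2 * c2)) + c2) * s4 +
        ((a2 - δ ^ 2) * (1 + δ * Z) ^ 2) * s2 +
        (-α * (1 + δ * Z) ^ 3) * hs + (-(α * δ ^ 2) * (1 + δ * Z)) * s3 + hκ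
    rw [e]
    refine V_two_mul_lt h2 ?_
    repeat' first | assumption | apply V_sub_le | apply V_add_le | apply V_mul_le | apply V_pow_le

end H86IK
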